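import Mathlib

/-!
# Ranks in families with full 2-torsion: definitions

Project RK (helper262), problem MP_157626_nt.
-/

namespace Pool.Agent.W262.RK

open Finset

/-- the primes in `(z, y]` -/
def PS (z y : ℕ) : Finset ℕ := (Ioc z y).filter Nat.Prime

/-- the product of the primes in `(z, y]` -/
def PP (z y : ℕ) : ℕ := ∏ p ∈ PS z y, p

/-- `∏_{p ∣ d} w / (p - c)` -/
noncomputable def gw (w : ℝ) (c d : ℕ) : ℝ := ∏ p ∈ d.primeFactors, w / ((p : ℝ) - c)

/-- `∏_{p ∣ d} (1 + 2 / p)` -/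
noncomputable def hh (d : ℕ) : ℝ := ∏ p ∈ d.primeFactors, (1 + 2 / (p : ℝ))

/-- the Jacobi symbol as a real number -/
def Jr (a : ℤ) (n : ℕ) : ℝ := ((jacobiSym a n : ℤ) : ℝ)

/-- the nonprincipal character modulo 4 (if `e`), or `1` -/
def x4 (e : Bool) (n : ℕ) : ℝ := if e then ((ZMod.χ₄ (n : ZMod 4) : ℤ) : ℝ) else 1

open Classical in
/-- the tuples of pairwise coprime divisors of `PP z y` -/
noncomputable def Tup (ι : Type) [Fintype ι] [DecidableEq ι] (z y : ℕ) : Finset (ι → ℕ) :=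
  (Fintype.piFinset (fun _ : ι => (PP z y).divisors)).filter
    (fun d => ∀ i j, i ≠ j → (d i).Coprime (d j))

/-- product of the symbols `(d i / d j)`, `L i j`, and `(κ i / d i)` -/
noncomputable def Sym {ι : Type} [Fintype ι] (L : ι → ι → Bool) (κ : ι → ℤ) (d : ι → ℕ) : ℝ :=
  (∏ i, ∏ j, if L i j then Jr (d i) (d j) else 1) * ∏ i, Jr (κ i) (d i)

variable {J : Type} [Fintype J] [DecidableEq J]

/-- the product of the chosen parts of the forms of the other classes -/
def uu (cls : J → Fin 3) (τ : J → ℕ) (j : J) : ℕ := ∏ l ∈ univ.filter (fun l => cls l ≠ cls j), τ l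

/-- `τ` satisfies the symbol conditions: `τ j ∣ s j` and for `p ∣ s j` the number `u_j(τ)`
(times `κ j` if `p ∣ τ j`) is a nonzero square modulo `p` -/
def Cond (cls : J → Fin 3) (κ : J → ℤ) (s τ : J → ℕ) : Prop :=
  (∀ j, τ j ∣ s j) ∧ ∀ j, ∀ p : ℕ, p.Prime → p ∣ s j →
    jacobiSym ((if p ∣ τ j then κ j else 1) * (uu cls τ j : ℤ)) p = 1

open Classical in
/-- the number of the `τ` with `Cond` -/
noncomputable def NN (cls : J → Fin 3) (κ : J → ℤ) (s : J → ℕ) : ℕ :=
  ((Fintype.piFinset (fun j => (s j).divisors)).filter (Cond cls κ s)).card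

/-- index `(j, chosen, symbol)`: the symbol `(d i / d i')` occurs if the classes are different, `i` is
chosen and `i'` has a symbol -/
def LJ (cls : J → Fin 3) (i i' : J × Bool × Bool) : Bool :=
  decide (cls i.1 ≠ cls i'.1) && i.2.1 && i'.2.2

/-- the constants -/
def κJ (κ : J → ℤ) (i : J × Bool × Bool) : ℤ := if i.2.1 && i.2.2 then κ i.1 else 1

/-- the curve `y² = x (x - A) (x - B)` -/
def EAB (A B : ℤ) : WeierstrassCurve ℚ := ⟨0, -((A : ℚ) + B), 0, (A : ℚ) * B, 0⟩

end Pool.Agent.W262.RK
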