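import Mathlib
import Pool.Agent.W262.RK.Defs

/-!
# Project RK, second edition: definitions

Families `y² = x (x - F 0 (t)) (x - F 1 (t))` with `F k = a k * ∏_{cls j = k or 3} f j`,
`F 0 - F 1 = F 2`. The class `3` consists of the common factors (twists).
-/

namespace Pool.Agent.W262.RK

open Finset

/-- the linear forms -/
def ff {J : Type} (α β : J → ℤ) (t : ℤ) (j : J) : ℤ := α j * t + β j

/-- the resultants -/
def Res {J : Type} (α β : J → ℤ) (j l : J) : ℤ := α j * β l - α l * β j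

/-- the product of the primes of `(z, y]` that divide `f_j(t)` exactly once -/
def s1 {J : Type} (α β : J → ℤ) (z y : ℕ) (t : ℤ) (j : J) : ℕ :=
  ∏ p ∈ (PS z y).filter (fun p : ℕ => (p : ℤ) ∣ ff α β t j ∧ ¬ (p : ℤ) ^ 2 ∣ ff α β t j), p

/-- the product of the primes of `(z, y]` whose square divides `f_j(t)` -/
def s2 {J : Type} (α β : J → ℤ) (z y : ℕ) (t : ℤ) (j : J) : ℕ :=
  ∏ p ∈ (PS z y).filter (fun p : ℕ => (p : ℤ) ^ 2 ∣ ff α β t j), p

/-- is `d` divisible by `p`? -/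
def dv (p : ℕ) (d : ℤ) : Bool := decide ((p : ℤ) ∣ d)

/-- is the symbol equal to `-1`? -/
def sg0 (p : ℕ) (k : ℤ) : Bool := decide (jacobiSym k p = -1)

/-- is the symbol of `d / (d, p)` equal to `-1`? -/
def sgn (p : ℕ) (d : ℤ) : Bool := sg0 p (d / (Int.gcd d p : ℤ))

/-- a subgroup: contains zero and closed under addition modulo 2 -/
def XC (P : Bool → Bool → Bool → Bool → Prop) : Prop :=
  P false false false false ∧ ∀ a b c d a' b' c' d', P a b c d → P a' b' c' d' →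
    P (xor a a') (xor b b') (xor c c') (xor d d')

open Classical in
/-- the number of the pairs of divisors of `m` that satisfy the local conditions `L p` for all the
primes `p ∣ m`; `L p v w h g` is about `v`, `w`: is `d₁`, `d₂` divisible by `p`, and `h`, `g`: the
symbols of the parts of `d₁`, `d₂` prime to `p` -/
noncomputable def NL (m : ℕ) (L : ℕ → Bool → Bool → Bool → Bool → Prop) : ℕ :=
  ((m.divisors ×ˢ m.divisors).filter (fun d : ℕ × ℕ => ∀ p ∈ m.primeFactors,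
    L p (dv p d.1) (dv p d.2) (sgn p d.1) (sgn p d.2))).card

/-- the local conditions for `(x, x - A)`, depending on the class `c` and the constants `κ`, and
for the class `3` on a sign -/
def LL (c : Fin 4) (κ : Fin 3 → ℤ) (neg : Bool) (p : ℕ) (v w h g : Bool) : Prop :=
  if c = 0 then v = w ∧ xor h g = (v && sg0 p (κ 0))
  else if c = 1 then w = false ∧ g = (v && sg0 p (κ 0))
  else if c = 2 then v = false ∧ h = (w && sg0 p (κ 0))
  else
    h = xor (v && neg) (xor (v && !w && sg0 p (κ 0)) (xor (!v && w && sg0 p (κ 0 * κ 1))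
      (v && w && sg0 p (κ 1)))) ∧
    g = xor (w && neg) (xor (v && !w && sg0 p (κ 0 * κ 2)) (xor (!v && w && sg0 p (-κ 0))
      (v && w && sg0 p (-κ 2))))

/-- the local hypotheses on `A`, `B` for the class `c` -/
def LocH (c : Fin 4) (κ : Fin 3 → ℤ) (neg : Bool) (p : ℕ) (A B : ℤ) : Prop :=
  if c = 0 then (p : ℤ) ∣ A ∧ ¬ (p : ℤ) ^ 2 ∣ A ∧ ¬ (p : ℤ) ∣ B ∧ jacobiSym (κ 0 * (-B)) p = 1
  else if c = 1 then
    (p : ℤ) ∣ B ∧ ¬ (p : ℤ) ^ 2 ∣ B ∧ ¬ (p : ℤ) ∣ A ∧ jacobiSym (κ 0 * (-A)) p = 1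
  else if c = 2 then
    (p : ℤ) ∣ A - B ∧ ¬ (p : ℤ) ^ 2 ∣ A - B ∧ ¬ (p : ℤ) ∣ A ∧ jacobiSym (κ 0 * A) p = 1
  else
    (p : ℤ) ∣ A ∧ (p : ℤ) ∣ B ∧ ¬ (p : ℤ) ^ 2 ∣ A ∧ ¬ (p : ℤ) ^ 2 ∣ B ∧ ¬ (p : ℤ) ^ 2 ∣ A - B ∧
    jacobiSym (κ 0 * (A / p)) p = (if neg then -1 else 1) ∧
    jacobiSym (κ 1 * (B / p)) p = (if neg then -1 else 1) ∧
    jacobiSym (κ 2 * ((A - B) / p)) p = (if neg then -1 else 1)

variable {J : Type} [Fintype J] [DecidableEq J]

/-- the local conditions for the tuple `s`; `E` is the set of the primes of the class `3` with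
negative sign -/
def LLs (cls : J → Fin 4) (κ : J → Fin 3 → ℤ) (s : J → ℕ) (E : Finset ℕ) (p : ℕ)
    (v w h g : Bool) : Prop :=
  ∀ j, p ∣ s j → LL (cls j) (κ j) (decide (p ∈ E)) p v w h g

/-- the primes of the class `3` -/
def P3 (cls : J → Fin 4) (s : J → ℕ) : Finset ℕ :=
  (∏ j ∈ univ.filter (fun j => cls j = 3), s j).primeFactors

/-- the average of `NL` over the signs -/
noncomputable def NB (cls : J → Fin 4) (κ : J → Fin 3 → ℤ) (s : J → ℕ) : ℝ :=
  (1 / 2) ^ (P3 cls s).card * ∑ E ∈ (P3 cls s).powerset, (NL (∏ j, s j) (LLs cls κ s E) : ℝ)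

/-- the primes of the class `3` with negative sign: `p ∣ s j` with `(f_j(t) / p | p) = -1` -/
def neg3 (cls : J → Fin 4) (α β : J → ℤ) (t : ℤ) (s : J → ℕ) : Finset ℕ :=
  (P3 cls s).filter (fun p => ∃ j, cls j = 3 ∧ p ∣ s j ∧ jacobiSym (ff α β t j / p) p = -1)

/-- the direction of the class -/
def ec (c : Fin 4) : Bool × Bool := if c = 0 then (true, true) else if c = 1 then (true, false)
  else (false, true)

/-- the allowed types `(v, χ)` for the class `c` -/
def Al (c : Fin 4) (v x : Bool × Bool) : Bool :=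
  if c = 3 then !(xor (x.1 && v.1) (x.2 && v.2))
  else (decide (v = (false, false)) || decide (v = ec c)) &&
    (decide (x = (false, false)) || decide (x = (ec c).swap))

/-- the index set: `(j, v, χ)` -/
def I4 (cls : J → Fin 4) : Type :=
  {i : J × (Bool × Bool) × (Bool × Bool) // Al (cls i.1) i.2.1 i.2.2 = true}

instance (cls : J → Fin 4) : Fintype (I4 cls) := by unfold I4; infer_instance

instance (cls : J → Fin 4) : DecidableEq (I4 cls) := by unfold I4; infer_instance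

/-- the weights -/
noncomputable def w4 (cls : J → Fin 4) (i : I4 cls) : ℝ := if cls i.1.1 = 3 then 1 / 4 else 1 / 2

/-- the symbol `(d i / d i')` occurs if `χ_{i'}(v_i) = 1` -/
def L4 (cls : J → Fin 4) (i i' : I4 cls) : Bool :=
  xor (i'.1.2.2.1 && i.1.2.1.1) (i'.1.2.2.2 && i.1.2.1.2)

/-- the constants -/
def κ4 (cls : J → Fin 4) (κ : J → Fin 3 → ℤ) (i : I4 cls) : ℤ :=
  if i.1.2.1 = (false, false) ∨ i.1.2.2 = (false, false) then 1
  else if cls i.1.1 = 3 then
    (if i.1.2.1 = (true, false) then κ i.1.1 0 * κ i.1.1 2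
      else if i.1.2.1 = (false, true) then κ i.1.1 0 * κ i.1.1 1
      else -(κ i.1.1 1 * κ i.1.1 2))
  else κ i.1.1 0

/-- the large primes are good -/
def Bg (α β : J → ℤ) (z : ℕ) : Prop :=
  2 * Fintype.card J + 2 ≤ z ∧ ∀ p : ℕ, p.Prime → z < p → (∀ j, ¬ (p : ℤ) ∣ α j) ∧
    ∀ j l, j ≠ l → ¬ (p : ℤ) ∣ Res α β j l

end Pool.Agent.W262.RK
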