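import Mathlib
import Pool.Agent.W262.RK.Stm
import Pool.Agent.W262.RK.Defs2

/-!
# Project RK, second edition: statements of the parts
-/

namespace Pool.Agent.W262.RK

open Finset

/-- SVR: upper bound sieve in a residue class. -/
def SVR : Prop := ∀ (J : Type) [Fintype J] [DecidableEq J] (α β : J → ℤ) (z : ℕ), Bg α β z →
  ∃ (C : ℝ) (K y0 : ℕ), 0 ≤ C ∧ 1 ≤ K ∧ ∀ X y : ℕ, y0 ≤ y → z < y → y ^ K ≤ X →
  ∀ m r : ℕ, 1 ≤ m → m ^ 4 ≤ X →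
    (((Icc 1 X).filter (fun t : ℕ => t ≡ r [MOD m] ∧ ∀ p ∈ PS z y, ¬ p ∣ m →
      ∀ j, ¬ (p : ℤ) ∣ ff α β t j)).card : ℝ) ≤
      C * (X / m) * (∏ p ∈ m.primeFactors.filter (fun p => p ∈ PS z y),
        (p : ℝ) / ((p : ℝ) - Fintype.card J)) / (Real.log y) ^ (Fintype.card J)

/-- CNT4: the number of `t` with given small prime factors and given signs. -/
def CNT4 : Prop := ∀ (J : Type) [Fintype J] [DecidableEq J] (α β : J → ℤ) (cls : J → Fin 4)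
  (z : ℕ), Bg α β z → ∃ (C : ℝ) (K y0 : ℕ), 0 ≤ C ∧ 1 ≤ K ∧ ∀ X y Y : ℕ, y0 ≤ y → z < y →
  y ^ K ≤ X → ∀ s ∈ Tup J z y, ∀ v ∈ Tup J z y, ∀ u ∈ Tup J y Y,
  (∏ j, s j * v j * u j) ^ 8 ≤ X → ∀ E : Finset ℕ,
    (((Icc 1 X).filter (fun t : ℕ => s1 α β z y t = s ∧ s2 α β z y t = v ∧
      (∀ j, (u j : ℤ) ∣ ff α β t j) ∧ neg3 cls α β t s = E)).card : ℝ) ≤
      C * X * (1 / 2) ^ (P3 cls s).card * (∏ j, gw 1 (Fintype.card J) (s j)) *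
        (∏ j, gw 1 (Fintype.card J) (v j) / v j) * (∏ j, 1 / (u j : ℝ)) /
        (Real.log y) ^ (Fintype.card J)

/-- RS: the weighted sum with Rankin's trick. -/
def RS : Prop := ∀ (J : Type) [Fintype J] [DecidableEq J] (z : ℕ) (G : (J → ℕ) → ℝ)
  (C' lam : ℝ), 2 * Fintype.card J + 2 ≤ z → 0 ≤ lam → (∀ s, 0 ≤ G s) →
  (∀ y, z < y → ∀ s e : J → ℕ, (fun j => s j * e j) ∈ Tup J z y →
    G (fun j => s j * e j) ≤ 4 ^ (∑ j, (e j).primeFactors.card) * G s) →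
  (∀ y, z < y → ∑ s ∈ Tup J z y, G s * ∏ j, gw 1 (Fintype.card J) (s j) ≤
    C' * (Real.log y) ^ (Fintype.card J)) →
  ∃ C : ℝ, ∀ y, z < y →
    ∑ s ∈ Tup J z y, G s * (∏ j, gw 1 (Fintype.card J) (s j)) *
      (∏ j, (s j : ℝ)) ^ (lam / Real.log y) ≤ C * (Real.log y) ^ (Fintype.card J)

/-- RV: the sum over the squares. -/
def RV : Prop := ∀ (J : Type) [Fintype J] [DecidableEq J] (z : ℕ) (lam : ℝ),
  2 * Fintype.card J + 2 ≤ z → 0 ≤ lam → ∃ C : ℝ, ∀ y, z < y →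
    ∑ v ∈ Tup J z y, (∏ j, 4 ^ (v j).primeFactors.card * (gw 1 (Fintype.card J) (v j) / v j)) *
      (∏ j, (v j : ℝ)) ^ (lam / Real.log y) ≤ C

/-- RU: the sum over the medium primes. -/
def RU : Prop := ∀ (J : Type) [Fintype J] [DecidableEq J] (lam : ℝ), 0 ≤ lam → ∃ C : ℝ,
  ∀ y Y : ℕ, 3 ≤ y → Y ≤ (y + 1) ^ 2 →
    ∑ u ∈ Tup J y Y, (∏ j, 1 / (u j : ℝ)) * (∏ j, (u j : ℝ)) ^ (lam / Real.log y) ≤ C

/-- GR: the greedy choice of a divisor. -/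
def GR : Prop := ∀ (J : Type) [Fintype J] [DecidableEq J] (z y Y X : ℕ), z ≤ y → y ≤ Y →
  Y ^ 16 ≤ X → ∀ s v g : J → ℕ, g ∈ Tup J y Y → (∏ j, s j * v j) ^ 8 ≤ X →
  X < (∏ j, s j * v j * g j) ^ 8 → ∃ u ∈ Tup J y Y, (∀ j, u j ∣ g j) ∧
    (∏ j, s j * v j * u j) ^ 8 ≤ X ∧ X < (∏ j, s j * v j * u j) ^ 16

/-- NT: summation of a function with a local majorant (Nair, Tenenbaum). -/
def NT : Prop := ∀ (J : Type) [Fintype J] [DecidableEq J] (α β : J → ℤ) (z : ℕ)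
  (G : (J → ℕ) → ℝ) (R : ℕ → ℝ) (C C' D : ℝ) (K y0 : ℕ), Bg α β z → (∀ s, 0 ≤ G s) →
  (∀ t, 0 ≤ R t) → 0 ≤ C → 1 ≤ D → 1 ≤ K →
  (∀ y, z < y → ∀ s e : J → ℕ, (fun j => s j * e j) ∈ Tup J z y →
    G (fun j => s j * e j) ≤ 4 ^ (∑ j, (e j).primeFactors.card) * G s) →
  (∀ y, z < y → ∑ s ∈ Tup J z y, G s * ∏ j, gw 1 (Fintype.card J) (s j) ≤
    C' * (Real.log y) ^ (Fintype.card J)) →
  (∀ X y Y k : ℕ, y0 ≤ y → z < y → y ^ K ≤ X → X < (y + 1) ^ k → ∀ s ∈ Tup J z y,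
    ∀ v ∈ Tup J z y, ∀ u ∈ Tup J y Y, (∏ j, s j * v j * u j) ^ 8 ≤ X →
    ∑ t ∈ (Icc 1 X).filter (fun t : ℕ => (∀ j, ff α β t j ≠ 0) ∧ s1 α β z y t = s ∧
      s2 α β z y t = v ∧ ∀ j, (u j : ℤ) ∣ ff α β t j), R t ≤
      C * D ^ k * X * (G s * ∏ j, gw 1 (Fintype.card J) (s j)) *
        (∏ j, 4 ^ (v j).primeFactors.card * (gw 1 (Fintype.card J) (v j) / v j)) *
        (∏ j, 1 / (u j : ℝ)) / (Real.log y) ^ (Fintype.card J)) →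
  ∃ C2 : ℝ, ∀ X : ℕ, ∑ t ∈ (Icc 1 X).filter (fun t : ℕ => ∀ j, ff α β t j ≠ 0), R t ≤ C2 * X

/-- SUB4: the Selmer count grows at most by the factor `4` for each prime. -/
def SUB4 : Prop := ∀ (m e : ℕ) (L : ℕ → Bool → Bool → Bool → Bool → Prop), Squarefree (m * e) →
  (∀ p, p.Prime → p ∣ m → XC (L p)) → NL (m * e) L ≤ 4 ^ e.primeFactors.card * NL m L

/-- SUBB: the same for the average over the signs. -/
def SUBB : Prop := ∀ (J : Type) [Fintype J] [DecidableEq J] (cls : J → Fin 4)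
  (κ : J → Fin 3 → ℤ) (z y : ℕ), 2 ≤ z → (∀ j k, κ j k ≠ 0) → (∀ j k, (κ j k).natAbs ≤ z) →
  ∀ s e : J → ℕ, (fun j => s j * e j) ∈ Tup J z y →
    NB cls κ (fun j => s j * e j) ≤ 4 ^ (∑ j, (e j).primeFactors.card) * NB cls κ s

/-- EXP4: expansion of the average over the signs into symbols. -/
def EXP4 : Prop := ∀ (J : Type) [Fintype J] [DecidableEq J] (cls : J → Fin 4)
  (κ : J → Fin 3 → ℤ) (c z y : ℕ), 2 ≤ z → (∀ j k, κ j k ≠ 0) → (∀ j k, (κ j k).natAbs ≤ z) →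
  ∑ s ∈ Tup J z y, NB cls κ s * ∏ j, gw 1 c (s j) =
    ∑ d ∈ Tup (I4 cls) z y, (∏ i, gw (w4 cls i) c (d i)) * Sym (L4 cls) (κ4 cls κ) d

/-- COMB4: the largest unlinked set. -/
def COMB4 : Prop := ∀ (J : Type) [Fintype J] [DecidableEq J] (cls : J → Fin 4) (n : ℕ),
  (∀ k, k ≠ 3 → (univ.filter (fun j => cls j = k)).card = n) → ∀ U : Finset (I4 cls),
  (∀ i ∈ U, ∀ j ∈ U, L4 cls i j = L4 cls j i) → ∑ i ∈ U, w4 cls i ≤ Fintype.card J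

/-- XCL: the local conditions form a group. -/
def XCL : Prop := ∀ (c : Fin 4) (κ : Fin 3 → ℤ) (neg : Bool) (p : ℕ), p.Prime → p ≠ 2 →
  (∀ k, ¬ (p : ℤ) ∣ κ k) → XC (LL c κ neg p)

/-- LOCL: the local conditions hold for the points of the curve. -/
def LOCL : Prop := ∀ (c : Fin 4) (κ : Fin 3 → ℤ) (neg : Bool) (p : ℕ) [Fact p.Prime] (A B : ℤ),
  p ≠ 2 → (∀ k, ¬ (p : ℤ) ∣ κ k) → LocH c κ neg p A B → ∀ x y : ℚ, y ≠ 0 →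
  y ^ 2 = x * (x - A) * (x - B) → ∀ e1 e2 : ℤ, Squarefree e1 → Squarefree e2 →
  IsSquare ((x * e1 : ℚ) : ℚ_[p]) → IsSquare (((x - A) * e2 : ℚ) : ℚ_[p]) →
    LL c κ neg p (dv p e1) (dv p e2) (sgn p e1) (sgn p e2)

/-- DESC4: the 2-descent with arbitrary local conditions. -/
def DESC4 : Prop := ∀ (m : ℕ) (L : ℕ → Bool → Bool → Bool → Bool → Prop) (A B : ℤ), A ≠ 0 →
  B ≠ 0 → A ≠ B → Odd m → Squarefree m → (∀ p, p.Prime → p ∣ m → XC (L p)) →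
  (∀ (p : ℕ) [Fact p.Prime], p ∣ m → ∀ x y : ℚ, y ≠ 0 → y ^ 2 = x * (x - A) * (x - B) →
    ∀ e1 e2 : ℤ, Squarefree e1 → Squarefree e2 → IsSquare ((x * e1 : ℚ) : ℚ_[p]) →
    IsSquare (((x - A) * e2 : ℚ) : ℚ_[p]) → L p (dv p e1) (dv p e2) (sgn p e1) (sgn p e2)) →
  2 ^ Module.finrank ℤ (EAB A B).toAffine.Point ≤
    4 ^ (((2 * A * B * (A - B)).natAbs.primeFactors.filter (fun q => ¬ q ∣ m)).card + 2) * NL m L

end Pool.Agent.W262.RK
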