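import Mathlib
import Pool.Agent.W262.RK.Stm

/-! Project RK: basic facts. -/

namespace Pool.Agent.W262.RK

open Finset

lemma mem_PS {z y p : ℕ} : p ∈ PS z y ↔ (z < p ∧ p ≤ y) ∧ p.Prime := by
  simp [PS]

lemma PP_ne_zero (z y : ℕ) : PP z y ≠ 0 :=
  prod_ne_zero_iff.2 fun _ hp => (mem_PS.1 hp).2.ne_zero

lemma PP_squarefree (z y : ℕ) : Squarefree (PP z y) := by
  unfold PP
  rw [Nat.squarefree_iff_prime_squarefree]
  intro p hp h
  have hmem : p ∈ PS z y := by
    have h1 : p ∣ ∏ q ∈ PS z y, q := (Dvd.intro _ rfl).trans h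
    obtain ⟨q, hq, hpq⟩ := (hp.prime.dvd_finsetProd_iff _).1 h1
    rwa [(Nat.prime_dvd_prime_iff_eq hp (mem_PS.1 hq).2).1 hpq]
  rw [← mul_prod_erase _ _ hmem] at h
  have h2 : p ∣ ∏ q ∈ (PS z y).erase p, q := Nat.dvd_of_mul_dvd_mul_left hp.pos h
  obtain ⟨q, hq, hpq⟩ := (hp.prime.dvd_finsetProd_iff _).1 h2
  have h3 := mem_erase.1 hq
  exact h3.1 ((Nat.prime_dvd_prime_iff_eq hp (mem_PS.1 h3.2).2).1 hpq).symm

lemma prime_dvd_PP {z y p : ℕ} (hp : p.Prime) : p ∣ PP z y ↔ p ∈ PS z y := by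
  constructor
  · intro h
    obtain ⟨q, hq, hpq⟩ := (hp.prime.dvd_finsetProd_iff _).1 h
    rwa [(Nat.prime_dvd_prime_iff_eq hp (mem_PS.1 hq).2).1 hpq]
  · intro h
    exact dvd_prod_of_mem _ h

lemma PP_primeFactors (z y : ℕ) : (PP z y).primeFactors = PS z y := by
  ext p
  rw [Nat.mem_primeFactors]
  constructor
  · rintro ⟨hp, h, -⟩
    exact (prime_dvd_PP hp).1 h
  · intro h
    exact ⟨(mem_PS.1 h).2, (prime_dvd_PP (mem_PS.1 h).2).2 h, PP_ne_zero _ _⟩

lemma dv_squarefree {z y d : ℕ} (hd : d ∈ (PP z y).divisors) : Squarefree d :=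
  (PP_squarefree z y).squarefree_of_dvd (Nat.dvd_of_mem_divisors hd)

lemma dv_ne_zero {z y d : ℕ} (hd : d ∈ (PP z y).divisors) : d ≠ 0 :=
  (Nat.pos_of_mem_divisors hd).ne'

lemma dv_pos {z y d : ℕ} (hd : d ∈ (PP z y).divisors) : 0 < d := Nat.pos_of_mem_divisors hd

lemma dv_prime {z y d p : ℕ} (hd : d ∈ (PP z y).divisors) (hp : p.Prime) (h : p ∣ d) :
    z < p ∧ p ≤ y :=
  (mem_PS.1 ((prime_dvd_PP hp).1 (h.trans (Nat.dvd_of_mem_divisors hd)))).1

lemma dv_odd {z y d : ℕ} (hz : 2 ≤ z) (hd : d ∈ (PP z y).divisors) : Odd d := by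
  rw [← Nat.not_even_iff_odd, even_iff_two_dvd]
  intro h
  have := (dv_prime hd Nat.prime_two h).1
  omega

lemma one_mem_dv (z y : ℕ) : 1 ∈ (PP z y).divisors :=
  Nat.one_mem_divisors.2 (PP_ne_zero z y)

lemma gw_one (w : ℝ) (c : ℕ) : gw w c 1 = 1 := by simp [gw]

lemma hh_one : hh 1 = 1 := by simp [hh]

lemma one_le_hh (d : ℕ) : 1 ≤ hh d := by
  unfold hh
  have : ∀ p ∈ d.primeFactors, (1 : ℝ) ≤ 1 + 2 / (p : ℝ) := by
    intro p _
    have : (0 : ℝ) ≤ 2 / (p : ℝ) := by positivity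
    linarith
  calc (1 : ℝ) = ∏ p ∈ d.primeFactors, (1 : ℝ) := by simp
    _ ≤ _ := prod_le_prod (fun _ _ => zero_le_one) this

lemma hh_nonneg (d : ℕ) : 0 ≤ hh d := zero_le_one.trans (one_le_hh d)

lemma gw_nonneg {w : ℝ} {c z y d : ℕ} (hw : 0 ≤ w) (hz : c ≤ z) (hd : d ∈ (PP z y).divisors) :
    0 ≤ gw w c d := by
  unfold gw
  apply prod_nonneg
  intro p hp
  have h1 := (dv_prime hd (Nat.prime_of_mem_primeFactors hp) (Nat.dvd_of_mem_primeFactors hp)).1
  have h2 : (c : ℝ) < p := by exact_mod_cast lt_of_le_of_lt hz h1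
  apply div_nonneg hw
  linarith

/-- `gw w c d ≤ 1 / d` -/
lemma gw_le {w : ℝ} {c z y d : ℕ} (hw : 0 ≤ w) (hw2 : w ≤ 1 / 2) (hz : 2 * c ≤ z)
    (hd : d ∈ (PP z y).divisors) : gw w c d ≤ 1 / (d : ℝ) := by
  have hsq := dv_squarefree hd
  have h0 : (1 : ℝ) / d = ∏ p ∈ d.primeFactors, (1 / (p : ℝ)) := by
    rw [prod_div_distrib, prod_const_one]
    congr 1
    rw [← Nat.cast_prod, Nat.prod_primeFactors_of_squarefree hsq]
  rw [h0]
  unfold gw
  apply prod_le_prod
  · intro p hp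
    have h1 := (dv_prime hd (Nat.prime_of_mem_primeFactors hp) (Nat.dvd_of_mem_primeFactors hp)).1
    have h2 : (c : ℝ) < p := by exact_mod_cast lt_of_le_of_lt (by omega : c ≤ z) h1
    apply div_nonneg hw
    linarith
  · intro p hp
    have h1 := (dv_prime hd (Nat.prime_of_mem_primeFactors hp) (Nat.dvd_of_mem_primeFactors hp)).1
    have h2 : 2 * (c : ℝ) < p := by exact_mod_cast lt_of_le_of_lt hz h1
    have h3 : (0 : ℝ) < p := by
      have : (0 : ℝ) ≤ c := Nat.cast_nonneg c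
      linarith
    have h4 : (0 : ℝ) < (p : ℝ) - c := by
      have : (0 : ℝ) ≤ c := Nat.cast_nonneg c
      linarith
    rw [div_le_div_iff₀ h4 h3]
    nlinarith

lemma abs_Jr_le (a : ℤ) (n : ℕ) : |Jr a n| ≤ 1 := by
  unfold Jr
  rcases jacobiSym.trichotomy a n with h | h | h <;> simp [h]

lemma abs_x4_le (e : Bool) (n : ℕ) : |x4 e n| ≤ 1 := by
  unfold x4
  split_ifs
  · have : ∀ a : ZMod 4, |((ZMod.χ₄ a : ℤ) : ℝ)| ≤ 1 := by
      intro a
      have h : ZMod.χ₄ a = 0 ∨ ZMod.χ₄ a = 1 ∨ ZMod.χ₄ a = -1 := by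
        revert a; decide
      rcases h with h | h | h <;> simp [h]
    exact this _
  · simp

/-- isolating one variable -/
lemma sum_update {ι : Type} [Fintype ι] [DecidableEq ι] {M : Type*} [AddCommMonoid M]
    (t : ι → Finset ℕ) (i : ι) (G : (ι → ℕ) → M) :
    ∑ d ∈ Fintype.piFinset t, G d =
      ∑ e ∈ Fintype.piFinset (Function.update t i {1}), ∑ m ∈ t i, G (Function.update e i m) := by
  rw [← sum_product']
  symm
  refine sum_bij' (fun x _ => Function.update x.1 i x.2)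
    (fun d _ => (Function.update d i 1, d i)) ?_ ?_ ?_ ?_ ?_
  · intro x hx
    rw [mem_product, Fintype.mem_piFinset] at hx
    rw [Fintype.mem_piFinset]
    intro k
    by_cases hk : k = i
    · subst hk
      rw [Function.update_self]
      exact hx.2
    · have := hx.1 k
      rw [Function.update_of_ne hk] at this ⊢
      exact this
  · intro d hd
    rw [Fintype.mem_piFinset] at hd
    rw [mem_product, Fintype.mem_piFinset]
    refine ⟨fun k => ?_, hd i⟩
    by_cases hk : k = i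
    · subst hk
      simp
    · simp only [Function.update_of_ne hk]
      exact hd k
  · intro x hx
    rw [mem_product, Fintype.mem_piFinset] at hx
    have h1 := hx.1 i
    rw [Function.update_self, mem_singleton] at h1
    refine Prod.ext ?_ ?_
    · funext k
      by_cases hk : k = i
      · subst hk
        simp [h1]
      · simp [Function.update_of_ne hk]
    · simp
  · intro d hd
    funext k
    by_cases hk : k = i
    · subst hk
      simp
    · simp [Function.update_of_ne hk]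
  · intro x hx
    rfl

end Pool.Agent.W262.RK
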