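import Mathlib
import Pool.Agent.W262.RK.Bas

/-! Project RK: the product of symbols as a function of one variable. -/

namespace Pool.Agent.W262.RK

open Finset

lemma x4_mul {m : ℕ} (hm : Odd m) (e e' : Bool) : x4 e m * x4 e' m = x4 (xor e e') m := by
  have h : ((ZMod.χ₄ (m : ZMod 4) : ℤ) : ℝ) * ((ZMod.χ₄ (m : ZMod 4) : ℤ) : ℝ) = 1 := by
    have h1 : ZMod.χ₄ (m : ZMod 4) = 1 ∨ ZMod.χ₄ (m : ZMod 4) = -1 := by
      rcases Nat.odd_mod_four_iff.1 (Nat.odd_iff.1 hm) with h | h
      · left; exact ZMod.χ₄_nat_one_mod_four h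
      · right; exact ZMod.χ₄_nat_three_mod_four h
    rcases h1 with h1 | h1 <;> rw [h1] <;> norm_num
  unfold x4
  generalize ((ZMod.χ₄ (m : ZMod 4) : ℤ) : ℝ) = v at h ⊢
  cases e <;> cases e' <;> simp [h]

lemma x4_sq {m : ℕ} (hm : Odd m) (e : Bool) : x4 e m * x4 e m = 1 := by
  rw [x4_mul hm]
  simp [x4]

/-- reciprocity -/
lemma recip {a m : ℕ} (ha : Odd a) (hm : Odd m) :
    Jr a m = Jr m a * x4 (decide (a % 4 = 3)) m := by
  unfold Jr x4
  rcases Nat.odd_mod_four_iff.1 (Nat.odd_iff.1 ha) with h | h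
  · rw [jacobiSym.quadratic_reciprocity_one_mod_four h hm]
    simp [h]
  · rcases Nat.odd_mod_four_iff.1 (Nat.odd_iff.1 hm) with h' | h'
    · rw [jacobiSym.quadratic_reciprocity_one_mod_four' ha h', ZMod.χ₄_nat_one_mod_four h']
      simp
    · rw [jacobiSym.quadratic_reciprocity_three_mod_four h h', ZMod.χ₄_nat_three_mod_four h']
      simp [h]

lemma Jr_sq {a m : ℕ} (h : m.Coprime a) : Jr m a * Jr m a = 1 := by
  unfold Jr
  have h1 : jacobiSym (m : ℤ) a = 1 ∨ jacobiSym (m : ℤ) a = -1 :=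
    jacobiSym.eq_one_or_neg_one (by rw [Int.gcd_natCast_natCast]; exact h)
  rcases h1 with h1 | h1 <;> rw [h1] <;> norm_num

lemma Jr_one_right (a : ℤ) : Jr a 1 = 1 := by simp [Jr]

lemma Jr_mul_right (a : ℤ) {b c : ℕ} (hb : b ≠ 0) (hc : c ≠ 0) :
    Jr a (b * c) = Jr a b * Jr a c := by
  unfold Jr
  rw [jacobiSym.mul_right' a hb hc]
  push_cast
  rfl

lemma Jr_eq_zero {a m : ℕ} (ha : a ≠ 0) (h : ¬ m.Coprime a) : Jr m a = 0 := by
  unfold Jr
  have : jacobiSym (m : ℤ) a = 0 := by
    rw [jacobiSym.eq_zero_iff]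
    exact ⟨ha, by rw [Int.gcd_natCast_natCast]; exact h⟩
  rw [this]
  simp

variable {ι : Type} [Fintype ι] [DecidableEq ι]

/-- the part of `Sym` that involves the variable `i` (with value `m`) and the others `e` -/
noncomputable def XX (L : ι → ι → Bool) (i : ι) (e : ι → ℕ) (m : ℕ) : ℝ :=
  ∏ b ∈ univ.erase i, (if L i b then Jr m (e b) else 1) * (if L b i then Jr (e b) m else 1)

/-- the rest -/
noncomputable def RR (L : ι → ι → Bool) (κ : ι → ℤ) (i : ι) (e : ι → ℕ) : ℝ :=
  (∏ a ∈ univ.erase i, ∏ b ∈ univ.erase i, if L a b then Jr (e a) (e b) else 1) *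
    ∏ a ∈ univ.erase i, Jr (κ a) (e a)

lemma sym_update (L : ι → ι → Bool) (κ : ι → ℤ) (i : ι) (hL : L i i = false) (e : ι → ℕ) (m : ℕ) :
    Sym L κ (Function.update e i m) = XX L i e m * Jr (κ i) m * RR L κ i e := by
  have h1 : ∀ F : ι → ι → ℝ, F i i = 1 → ∏ a, ∏ b, F a b =
      (∏ b ∈ univ.erase i, F i b * F b i) * ∏ a ∈ univ.erase i, ∏ b ∈ univ.erase i, F a b := by
    intro F hF
    rw [← mul_prod_erase univ _ (mem_univ i), ← mul_prod_erase univ (F i) (mem_univ i), hF, one_mul,
      prod_mul_distrib, mul_assoc]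
    congr 1
    rw [← prod_mul_distrib]
    apply prod_congr rfl
    intro a _
    rw [← mul_prod_erase univ (F a) (mem_univ i)]
  have h2 : ∀ a ∈ univ.erase i, Function.update e i m a = e a := fun a ha =>
    Function.update_of_ne (mem_erase.1 ha).1 _ _
  unfold Sym XX RR
  rw [h1 _ (by simp [hL]), ← mul_prod_erase univ _ (mem_univ i), Function.update_self]
  have h3 : ∏ b ∈ univ.erase i, ((if L i b then Jr (m : ℤ) (Function.update e i m b) else 1) *
      (if L b i then Jr (Function.update e i m b) m else 1)) =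
      ∏ b ∈ univ.erase i, ((if L i b then Jr m (e b) else 1) * (if L b i then Jr (e b) m else 1)) := by
    apply prod_congr rfl
    intro b hb
    rw [h2 b hb]
  have h4 : ∏ a ∈ univ.erase i, ∏ b ∈ univ.erase i,
      (if L a b then Jr (Function.update e i m a) (Function.update e i m b) else 1) =
      ∏ a ∈ univ.erase i, ∏ b ∈ univ.erase i, (if L a b then Jr (e a) (e b) else 1) := by
    apply prod_congr rfl
    intro a ha
    apply prod_congr rfl
    intro b hb
    rw [h2 b hb, h2 a ha]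
  have h5 : ∏ a ∈ univ.erase i, Jr (κ a) (Function.update e i m a) =
      ∏ a ∈ univ.erase i, Jr (κ a) (e a) := by
    apply prod_congr rfl
    intro a ha
    rw [h2 a ha]
  rw [h3, h4, h5]
  ring

lemma abs_ite_Jr (b : Bool) (a : ℤ) (n : ℕ) : |if b then Jr a n else 1| ≤ 1 := by
  split_ifs
  · exact abs_Jr_le _ _
  · simp

lemma abs_prod_le_one {α : Type*} (s : Finset α) (f : α → ℝ) (h : ∀ a ∈ s, |f a| ≤ 1) :
    |∏ a ∈ s, f a| ≤ 1 := by
  rw [abs_prod]
  exact prod_le_one (fun _ _ => abs_nonneg _) h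

lemma abs_RR_le (L : ι → ι → Bool) (κ : ι → ℤ) (i : ι) (e : ι → ℕ) : |RR L κ i e| ≤ 1 := by
  unfold RR
  rw [abs_mul]
  apply mul_le_one₀ _ (abs_nonneg _) _
  · apply abs_prod_le_one
    intro a _
    apply abs_prod_le_one
    intro b _
    exact abs_ite_Jr _ _ _
  · apply abs_prod_le_one
    intro a _
    exact abs_Jr_le _ _

omit [DecidableEq ι] in
lemma abs_Sym_le (L : ι → ι → Bool) (κ : ι → ℤ) (d : ι → ℕ) : |Sym L κ d| ≤ 1 := by
  unfold Sym
  rw [abs_mul]
  apply mul_le_one₀ _ (abs_nonneg _) _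
  · apply abs_prod_le_one
    intro a _
    apply abs_prod_le_one
    intro b _
    exact abs_ite_Jr _ _ _
  · apply abs_prod_le_one
    intro a _
    exact abs_Jr_le _ _

/-- the product of the linked variables -/
def lk (L : ι → ι → Bool) (i : ι) (e : ι → ℕ) : ℕ :=
  ∏ b ∈ (univ.erase i).filter (fun b => L i b ≠ L b i), e b

/-- as a function of one variable the product of the symbols is a real character -/
lemma XX_char (L : ι → ι → Bool) (i : ι) (e : ι → ℕ) (he : ∀ b, Odd (e b)) :
    ∃ t : Bool, ∀ m : ℕ, Odd m → (∀ b, b ≠ i → m.Coprime (e b)) →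
      XX L i e m = Jr m (lk L i e) * x4 t m := by
  have key : ∀ s : Finset ι, s ⊆ univ.erase i → ∃ t : Bool, ∀ m : ℕ, Odd m →
      (∀ b, b ≠ i → m.Coprime (e b)) →
      ∏ b ∈ s, ((if L i b then Jr m (e b) else 1) * (if L b i then Jr (e b) m else 1)) =
        Jr m (∏ b ∈ s.filter (fun b => L i b ≠ L b i), e b) * x4 t m := by
    intro s
    induction s using Finset.induction_on with
    | empty =>
      intro _
      refine ⟨false, fun m _ _ => ?_⟩
      simp [Jr_one_right, x4]
    | insert a s ha ih =>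
      intro hs
      obtain ⟨t, ht⟩ := ih ((subset_insert a s).trans hs)
      have hai : a ≠ i := (mem_erase.1 (hs (mem_insert_self a s))).1
      have hP : ∏ b ∈ s.filter (fun b => L i b ≠ L b i), e b ≠ 0 :=
        prod_ne_zero_iff.2 fun b _ => (he b).pos.ne'
      refine ⟨xor (L a i && decide (e a % 4 = 3)) t, fun m hm hc => ?_⟩
      rw [prod_insert ha, ht m hm hc, filter_insert]
      have hrec := recip (he a) hm
      have hsq := Jr_sq (hc a hai)
      rw [← x4_mul hm]
      rcases h1 : L i a with _ | _ <;> rcases h2 : L a i with _ | _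
      · simp [x4]
      · simp only [Bool.false_eq_true, if_false, if_true, one_mul, ne_eq, not_false_eq_true,
          Bool.true_and, reduceCtorEq]
        rw [prod_insert (by simp [ha]), Jr_mul_right _ (he a).pos.ne' hP, hrec]
        ring
      · simp only [Bool.false_eq_true, if_false, if_true, mul_one, ne_eq, not_false_eq_true,
          Bool.false_and, reduceCtorEq]
        rw [prod_insert (by simp [ha]), Jr_mul_right _ (he a).pos.ne' hP]
        simp only [x4, Bool.false_eq_true, if_false]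
        ring
      · simp only [if_true, ne_eq, not_true_eq_false, if_false, Bool.true_and]
        rw [hrec]
        linear_combination (x4 (decide (e a % 4 = 3)) m *
          (Jr m (∏ b ∈ s.filter (fun b => L i b ≠ L b i), e b) * x4 t m)) * hsq
  exact key _ (Subset.refl _)

end Pool.Agent.W262.RK
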