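import Mathlib
import Pool.Agent.W262.RK.SymL

/-! Project RK: preparations for the abstract bound AT. -/

namespace Pool.Agent.W262.RK

open Finset

namespace AT

/-- the bound between small and large variables -/
noncomputable def VV (A : ℕ) (l : ℝ) : ℕ := ⌈l ^ A⌉₊ + 3

/-- the bound for all variables -/
noncomputable def YY (A : ℕ) (l : ℝ) : ℕ := ⌈Real.exp (l ^ 2)⌉₊ + VV A l

lemma VV_ge (A : ℕ) (l : ℝ) : l ^ A ≤ (VV A l : ℝ) := by
  unfold VV
  push_cast
  have := Nat.le_ceil (l ^ A)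
  linarith

lemma three_le_VV (A : ℕ) (l : ℝ) : 3 ≤ VV A l := by unfold VV; omega

lemma VV_le_YY (A : ℕ) (l : ℝ) : VV A l ≤ YY A l := by unfold YY; omega

lemma one_le_log_VV (A : ℕ) (l : ℝ) : 1 ≤ Real.log (VV A l) := by
  rw [Real.le_log_iff_exp_le (by have := three_le_VV A l; positivity)]
  have h1 : (3 : ℝ) ≤ VV A l := by exact_mod_cast three_le_VV A l
  have h2 := Real.exp_one_lt_d9
  linarith

lemma VV_le {A : ℕ} {l : ℝ} (hl : 1 ≤ l) : (VV A l : ℝ) ≤ 5 * l ^ A := by
  unfold VV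
  push_cast
  have h0 : 1 ≤ l ^ A := one_le_pow₀ hl
  have := (Nat.ceil_lt_add_one (by positivity : 0 ≤ l ^ A)).le
  linarith

lemma log_YY_ge (A : ℕ) (l : ℝ) : l ^ 2 ≤ Real.log (YY A l) := by
  have h0 : (0 : ℝ) < YY A l := by
    have := three_le_VV A l
    have := VV_le_YY A l
    exact_mod_cast (by omega : 0 < YY A l)
  rw [Real.le_log_iff_exp_le h0]
  unfold YY
  push_cast
  have := Nat.le_ceil (Real.exp (l ^ 2))
  have h1 : (0 : ℝ) ≤ VV A l := Nat.cast_nonneg _
  linarith

lemma log_YY_le {A : ℕ} {l : ℝ} (hl : 1 ≤ l) : Real.log (YY A l) ≤ (A + 3) * l ^ 2 := by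
  have h0 : (0 : ℝ) < YY A l := by
    have := three_le_VV A l
    have := VV_le_YY A l
    exact_mod_cast (by omega : 0 < YY A l)
  have h1 : (YY A l : ℝ) ≤ 7 * Real.exp ((A + 1) * l ^ 2) := by
    unfold YY
    push_cast
    have e1 := (Nat.ceil_lt_add_one (Real.exp_pos (l ^ 2)).le).le
    have e2 := VV_le (A := A) hl
    have e3 : l ^ A ≤ Real.exp ((A + 1) * l ^ 2) := by
      have h2 : l ≤ Real.exp l := by linarith [Real.add_one_le_exp l]
      calc l ^ A ≤ (Real.exp l) ^ A := pow_le_pow_left₀ (by linarith) h2 A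
        _ = Real.exp (A * l) := by rw [← Real.exp_nat_mul]
        _ ≤ Real.exp ((A + 1) * l ^ 2) := by
          apply Real.exp_le_exp.2
          have h3 : (0 : ℝ) ≤ A := Nat.cast_nonneg A
          have h4 : l ≤ l ^ 2 := by nlinarith
          have h5 := mul_le_mul_of_nonneg_left h4 h3
          nlinarith [sq_nonneg l]
    have e4 : Real.exp (l ^ 2) ≤ Real.exp ((A + 1) * l ^ 2) := by
      apply Real.exp_le_exp.2
      have : (0 : ℝ) ≤ A := Nat.cast_nonneg A
      nlinarith [sq_nonneg l]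
    have e5 : 1 ≤ Real.exp (l ^ 2) := Real.one_le_exp (sq_nonneg l)
    linarith
  have h7 : Real.log 7 ≤ 2 * l ^ 2 := by
    have : Real.log 7 ≤ 2 := by
      rw [Real.log_le_iff_le_exp (by norm_num)]
      have h := Real.exp_one_gt_d9
      have h2 : Real.exp 2 = Real.exp 1 * Real.exp 1 := by rw [← Real.exp_add]; norm_num
      rw [h2]
      nlinarith
    nlinarith
  calc Real.log (YY A l) ≤ Real.log (7 * Real.exp ((A + 1) * l ^ 2)) := Real.log_le_log h0 h1
    _ = Real.log 7 + (A + 1) * l ^ 2 := by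
      rw [Real.log_mul (by norm_num) (Real.exp_pos _).ne', Real.log_exp]
    _ ≤ (A + 3) * l ^ 2 := by linarith

/-- `log V` is smaller than every power of `l` -/
lemma log_VV_le (A : ℕ) {δ : ℝ} (hδ : 0 < δ) : ∃ C : ℝ, 0 ≤ C ∧ ∀ l : ℝ, 1 ≤ l →
    Real.log (VV A l) ≤ C * l ^ δ := by
  refine ⟨2 + A / δ, by positivity, fun l hl => ?_⟩
  have hl0 : 0 < l := by linarith
  have h0 : (0 : ℝ) < VV A l := by
    have := three_le_VV A l
    exact_mod_cast (by omega : 0 < VV A l)
  have h1 : Real.log (VV A l) ≤ Real.log 5 + A * Real.log l := by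
    calc Real.log (VV A l) ≤ Real.log (5 * l ^ A) := Real.log_le_log h0 (VV_le hl)
      _ = Real.log 5 + A * Real.log l := by
        rw [Real.log_mul (by norm_num) (by positivity), Real.log_pow]
  have h2 : Real.log 5 ≤ 2 := by
    rw [Real.log_le_iff_le_exp (by norm_num)]
    have h := Real.exp_one_gt_d9
    have h2 : Real.exp 2 = Real.exp 1 * Real.exp 1 := by rw [← Real.exp_add]; norm_num
    rw [h2]
    nlinarith
  have h3 : Real.log l ≤ l ^ δ / δ := Real.log_le_rpow_div hl0.le hδ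
  have h4 : 1 ≤ l ^ δ := Real.one_le_rpow hl hδ.le
  have h5 : (A : ℝ) * Real.log l ≤ A * (l ^ δ / δ) :=
    mul_le_mul_of_nonneg_left h3 (Nat.cast_nonneg A)
  calc Real.log (VV A l) ≤ 2 * l ^ δ + A * (l ^ δ / δ) := by linarith
    _ = (2 + A / δ) * l ^ δ := by ring

/-- powers of `log V` -/
lemma log_VV_pow_le (A M : ℕ) {δ : ℝ} (hδ : 0 < δ) : ∃ C : ℝ, 0 ≤ C ∧ ∀ l : ℝ, 1 ≤ l →
    Real.log (VV A l) ^ M ≤ C * l ^ δ := by
  rcases Nat.eq_zero_or_pos M with rfl | hM
  · refine ⟨1, zero_le_one, fun l hl => ?_⟩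
    rw [pow_zero, one_mul]
    exact Real.one_le_rpow hl hδ.le
  have hM' : (0 : ℝ) < M := by exact_mod_cast hM
  obtain ⟨C, hC, h⟩ := log_VV_le A (div_pos hδ hM')
  refine ⟨C ^ M, by positivity, fun l hl => ?_⟩
  have hl0 : 0 < l := by linarith
  calc Real.log (VV A l) ^ M ≤ (C * l ^ (δ / M)) ^ M :=
        pow_le_pow_left₀ (by linarith [one_le_log_VV A l]) (h l hl) M
    _ = C ^ M * l ^ δ := by
      rw [mul_pow, ← Real.rpow_natCast (l ^ (δ / M)) M, ← Real.rpow_mul hl0.le]
      congr 2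
      field_simp

/-- `e^(-l) l^m` is bounded -/
lemma exp_neg_pow (m : ℕ) {l : ℝ} (hl : 1 ≤ l) : Real.exp (-l) * l ^ m ≤ m.factorial := by
  have h1 : l ^ m / m.factorial ≤ Real.exp l := Real.pow_div_factorial_le_exp l (by linarith) m
  have h2 : (0 : ℝ) < m.factorial := by exact_mod_cast m.factorial_pos
  rw [div_le_iff₀ h2] at h1
  rw [Real.exp_neg, inv_mul_le_iff₀ (Real.exp_pos l)]
  exact h1

variable {ι : Type} [Fintype ι] [DecidableEq ι]

open Classical in
/-- the summand -/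
noncomputable def HH (w : ι → ℝ) (L : ι → ι → Bool) (κ : ι → ℤ) (c : ℕ) (d : ι → ℕ) : ℝ :=
  if (∀ i j, i ≠ j → (d i).Coprime (d j)) then (∏ i, gw (w i) c (d i)) * Sym L κ d else 0

lemma total_eq (w : ι → ℝ) (L : ι → ι → Bool) (κ : ι → ℤ) (c z y : ℕ) :
    ∑ d ∈ Tup ι z y, (∏ i, gw (w i) c (d i)) * Sym L κ d =
      ∑ d ∈ Fintype.piFinset (fun _ : ι => (PP z y).divisors), HH w L κ c d := by
  unfold Tup HH
  rw [sum_filter]

lemma abs_HH_le {w : ι → ℝ} {L : ι → ι → Bool} {κ : ι → ℤ} {c z y : ℕ} (hw : ∀ i, 0 ≤ w i)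
    (hz : c ≤ z) {d : ι → ℕ} (hd : ∀ i, d i ∈ (PP z y).divisors) :
    |HH w L κ c d| ≤ ∏ i, gw (w i) c (d i) := by
  have h0 : 0 ≤ ∏ i, gw (w i) c (d i) := prod_nonneg fun i _ => gw_nonneg (hw i) hz (hd i)
  unfold HH
  split_ifs
  · rw [abs_mul, abs_of_nonneg h0]
    exact mul_le_of_le_one_right h0 (abs_Sym_le _ _ _)
  · simpa using h0

/-- trivial bound -/
lemma triv {w : ι → ℝ} {L : ι → ι → Bool} {κ : ι → ℤ} {c z y : ℕ} (hw : ∀ i, 0 ≤ w i)
    (hz : c ≤ z) {t : ι → Finset ℕ} (ht : ∀ i, t i ⊆ (PP z y).divisors) :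
    |∑ d ∈ Fintype.piFinset t, HH w L κ c d| ≤ ∏ i, ∑ m ∈ t i, gw (w i) c m := by
  rw [prod_univ_sum]
  refine (abs_sum_le_sum_abs _ _).trans (sum_le_sum fun d hd => ?_)
  rw [Fintype.mem_piFinset] at hd
  exact abs_HH_le hw hz fun i => ht i (hd i)

/-- the summand as a function of one variable -/
lemma HH_update {w : ι → ℝ} {L : ι → ι → Bool} {κ : ι → ℤ} {c z y : ℕ} (i : ι)
    (hL : L i i = false) (hz : 2 ≤ z) {e : ι → ℕ} (he : ∀ b, e b ∈ (PP z y).divisors) :
    (∀ m, HH w L κ c (Function.update e i m) = 0) ∨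
      (∀ a b, a ≠ i → b ≠ i → a ≠ b → (e a).Coprime (e b)) ∧ ∃ t : Bool, ∀ m ∈ (PP z y).divisors,
      HH w L κ c (Function.update e i m) =
        if m.Coprime (∏ b ∈ univ.erase i, e b) then
          ((∏ b ∈ univ.erase i, gw (w b) c (e b)) * RR L κ i e) *
            (gw (w i) c m * (Jr m (lk L i e) * Jr (κ i) m * x4 t m)) else 0 := by
  classical
  by_cases hcop : ∀ a b, a ≠ i → b ≠ i → a ≠ b → (e a).Coprime (e b)
  · right
    refine ⟨hcop, ?_⟩
    obtain ⟨t, ht⟩ := XX_char L i e (fun b => dv_odd hz (he b))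
    refine ⟨t, fun m hm => ?_⟩
    have hiff : m.Coprime (∏ b ∈ univ.erase i, e b) ↔ ∀ b, b ≠ i → m.Coprime (e b) := by
      rw [Nat.coprime_prod_right_iff]
      simp
    have hiff2 : (∀ a b, a ≠ b → (Function.update e i m a).Coprime (Function.update e i m b)) ↔
        ∀ b, b ≠ i → m.Coprime (e b) := by
      constructor
      · intro h b hb
        have := h i b (Ne.symm hb)
        rwa [Function.update_self, Function.update_of_ne hb] at this
      · intro h a b hab
        by_cases ha : a = i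
        · subst ha
          rw [Function.update_self, Function.update_of_ne (Ne.symm hab)]
          exact h b (Ne.symm hab)
        · by_cases hb : b = i
          · subst hb
            rw [Function.update_self, Function.update_of_ne ha]
            exact (h a ha).symm
          · rw [Function.update_of_ne ha, Function.update_of_ne hb]
            exact hcop a b ha hb hab
    unfold HH
    by_cases h : ∀ b, b ≠ i → m.Coprime (e b)
    · rw [if_pos (hiff2.2 h), if_pos (hiff.2 h), sym_update L κ i hL, ht m (dv_odd hz hm) h,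
        ← mul_prod_erase univ _ (mem_univ i), Function.update_self]
      have : ∏ b ∈ univ.erase i, gw (w b) c (Function.update e i m b) =
          ∏ b ∈ univ.erase i, gw (w b) c (e b) := by
        apply prod_congr rfl
        intro b hb
        rw [Function.update_of_ne (mem_erase.1 hb).1]
      rw [this]
      ring
    · rw [if_neg (fun h' => h (hiff2.1 h')), if_neg (fun h' => h (hiff.1 h'))]
  · left
    intro m
    unfold HH
    rw [if_neg]
    intro h
    apply hcop
    intro a b ha hb hab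
    have := h a b hab
    rwa [Function.update_of_ne ha, Function.update_of_ne hb] at this

end AT

end Pool.Agent.W262.RK
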