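import Mathlib
import Pool.Agent.W262.RK.AT3

/-! Project RK: the abstract bound AT, all patterns. -/

namespace Pool.Agent.W262.RK

open Finset

namespace AT

variable {ι : Type} [Fintype ι] [DecidableEq ι]

variable {w : ι → ℝ} {L : ι → ι → Bool} {κ : ι → ℤ} {c z : ℕ} {C : ℝ}

/-- the kind of a variable: one, small, large, huge -/
def cl (V Y m : ℕ) : Fin 4 := if m ≤ 1 then 0 else if m ≤ V then 1 else if m ≤ Y then 2 else 3

/-- the variables of a given kind -/
def cell (z y V Y : ℕ) (k : Fin 4) : Finset ℕ := (PP z y).divisors.filter (fun m => cl V Y m = k)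

lemma cell_sub (z y V Y : ℕ) (k : Fin 4) : cell z y V Y k ⊆ (PP z y).divisors := filter_subset _ _

lemma cell_zero {z y V Y m : ℕ} (h : m ∈ cell z y V Y 0) : m = 1 := by
  unfold cell cl at h
  rw [mem_filter] at h
  have h1 := dv_pos h.1
  have h2 := h.2
  split_ifs at h2 with a b c
  · omega
  · exact absurd h2 (by decide)
  · exact absurd h2 (by decide)
  · exact absurd h2 (by decide)

lemma cell_one {z y V Y m : ℕ} (h : m ∈ cell z y V Y 1) : 1 < m ∧ m ≤ V := by
  unfold cell cl at h
  rw [mem_filter] at h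
  have h2 := h.2
  split_ifs at h2 with a b c
  · exact absurd h2 (by decide)
  · omega
  · exact absurd h2 (by decide)
  · exact absurd h2 (by decide)

lemma cell_two {z y V Y : ℕ} (hV : 1 ≤ V) : cell z y V Y 2 = lg z y V Y := by
  unfold cell lg cl
  apply filter_congr
  intro m _
  constructor
  · intro h
    split_ifs at h with a b c
    · exact absurd h (by decide)
    · exact absurd h (by decide)
    · omega
    · exact absurd h (by decide)
  · rintro ⟨h1, h2⟩
    rw [if_neg (by omega), if_neg (by omega), if_pos h2]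

lemma cell_three {z y V Y m : ℕ} (h : m ∈ cell z y V Y 3) : Y < m := by
  unfold cell cl at h
  rw [mem_filter] at h
  have h2 := h.2
  split_ifs at h2 with a b c
  · exact absurd h2 (by decide)
  · exact absurd h2 (by decide)
  · exact absurd h2 (by decide)
  · omega

/-- the decomposition into patterns -/
lemma patterns (z y V Y : ℕ) (F : (ι → ℕ) → ℝ) :
    ∑ d ∈ Fintype.piFinset (fun _ : ι => (PP z y).divisors), F d =
      ∑ π : ι → Fin 4, ∑ d ∈ Fintype.piFinset (fun k => cell z y V Y (π k)), F d := by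
  rw [← sum_fiberwise (Fintype.piFinset (fun _ : ι => (PP z y).divisors))
    (fun d k => cl V Y (d k)) F]
  apply sum_congr rfl
  intro π _
  apply sum_congr _ (fun _ _ => rfl)
  ext d
  simp only [mem_filter, Fintype.mem_piFinset, cell]
  constructor
  · rintro ⟨h1, h2⟩ k
    exact ⟨h1 k, congrFun h2 k⟩
  · intro h
    exact ⟨fun k => (h k).1, funext fun k => (h k).2⟩

lemma one_le_log {z y : ℕ} (hz : 2 ≤ z) (hy : z < y) : 1 ≤ Real.log y := by
  have h3 : 3 ≤ y := by omega
  rw [Real.le_log_iff_exp_le (by exact_mod_cast (by omega : 0 < y))]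
  have h1 : (3 : ℝ) ≤ y := by exact_mod_cast h3
  have h2 := Real.exp_one_lt_d9
  linarith

lemma gh_nonneg (hB : Bd w κ c z C) (k : ι) {y m : ℕ} (hm : m ∈ (PP z y).divisors) :
    0 ≤ gw (w k) c m * hh m :=
  mul_nonneg (gw_nonneg (hB.w0 k).le (by have := hB.zc; omega) hm) (hh_nonneg _)

/-- every cell -/
lemma cs_any (hB : Bd w κ c z C) {y : ℕ} (hy : z < y) (V Y : ℕ) (k : ι) (r : Fin 4) :
    ∑ m ∈ cell z y V Y r, gw (w k) c m * hh m ≤ C * Real.log y := by
  have hC0 : 0 ≤ C := zero_le_one.trans hB.C1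
  have hly := one_le_log hB.z2 hy
  calc ∑ m ∈ cell z y V Y r, gw (w k) c m * hh m ≤ ∑ m ∈ (PP z y).divisors, gw (w k) c m * hh m :=
        sum_le_sum_of_subset_of_nonneg (cell_sub _ _ _ _ _) fun m hm _ => gh_nonneg hB k hm
    _ ≤ C * (Real.log y) ^ (w k) := hB.F1 k y hy
    _ ≤ C * Real.log y := by
      apply mul_le_mul_of_nonneg_left _ hC0
      calc (Real.log y) ^ (w k) ≤ (Real.log y) ^ (1 : ℝ) :=
            Real.rpow_le_rpow_of_exponent_le hly (by have := hB.w1 k; linarith)
        _ = Real.log y := Real.rpow_one _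

/-- the cells of the kinds 0, 1, 2 -/
lemma cs_low (hB : Bd w κ c z C) {y : ℕ} (hy : z < y) {V Y : ℕ} (hV : 3 ≤ V) (k : ι) {r : Fin 4}
    (hr : r ≠ 3) : ∑ m ∈ cell z y V Y r, gw (w k) c m * hh m ≤
      C * (if r = 2 then (Real.log y) ^ (w k) else Real.log V) := by
  have hC0 : 0 ≤ C := zero_le_one.trans hB.C1
  have hly := one_le_log hB.z2 hy
  have hlV : 1 ≤ Real.log V := by
    rw [Real.le_log_iff_exp_le (by exact_mod_cast (by omega : 0 < V))]
    have h1 : (3 : ℝ) ≤ V := by exact_mod_cast hV
    have h2 := Real.exp_one_lt_d9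
    linarith
  by_cases h2 : r = 2
  · rw [if_pos h2]
    calc ∑ m ∈ cell z y V Y r, gw (w k) c m * hh m ≤ ∑ m ∈ (PP z y).divisors, gw (w k) c m * hh m :=
          sum_le_sum_of_subset_of_nonneg (cell_sub _ _ _ _ _) fun m hm _ => gh_nonneg hB k hm
      _ ≤ C * (Real.log y) ^ (w k) := hB.F1 k y hy
  · rw [if_neg h2]
    have hsub : cell z y V Y r ⊆ (PP z y).divisors.filter (fun d => d ≤ V) := by
      intro m hm
      rw [mem_filter]
      refine ⟨cell_sub _ _ _ _ _ hm, ?_⟩
      have : r = 0 ∨ r = 1 := by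
        fin_cases r
        · exact Or.inl rfl
        · exact Or.inr rfl
        · exact absurd rfl h2
        · exact absurd rfl hr
      rcases this with h | h
      · subst h
        have := cell_zero hm
        omega
      · subst h
        exact (cell_one hm).2
    calc ∑ m ∈ cell z y V Y r, gw (w k) c m * hh m
        ≤ ∑ m ∈ (PP z y).divisors.filter (fun d => d ≤ V), gw (w k) c m * hh m :=
          sum_le_sum_of_subset_of_nonneg hsub fun m hm _ => gh_nonneg hB k (mem_filter.1 hm).1
      _ ≤ C * (Real.log V) ^ (w k) := hB.F2 k y V hy (by omega)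
      _ ≤ C * Real.log V := by
        apply mul_le_mul_of_nonneg_left _ hC0
        calc (Real.log V) ^ (w k) ≤ (Real.log V) ^ (1 : ℝ) :=
              Real.rpow_le_rpow_of_exponent_le hlV (by have := hB.w1 k; linarith)
          _ = Real.log V := Real.rpow_one _

/-- product of the sums over cells of kinds 0, 1, 2 -/
lemma prod_low (hB : Bd w κ c z C) {y : ℕ} (hy : z < y) {V Y : ℕ} (hV : 3 ≤ V) (π : ι → Fin 4)
    (s : Finset ι) (hs : ∀ k ∈ s, π k ≠ 3) :
    ∏ k ∈ s, ∑ m ∈ cell z y V Y (π k), gw (w k) c m * hh m ≤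
      C ^ (Fintype.card ι) * (Real.log y) ^ (∑ k ∈ s.filter (fun k => π k = 2), w k) *
        (Real.log V) ^ (Fintype.card ι) := by
  have hC0 : 0 ≤ C := zero_le_one.trans hB.C1
  have hly := one_le_log hB.z2 hy
  have hly0 : 0 < Real.log y := by linarith
  have hlV : 1 ≤ Real.log V := by
    rw [Real.le_log_iff_exp_le (by exact_mod_cast (by omega : 0 < V))]
    have h1 : (3 : ℝ) ≤ V := by exact_mod_cast hV
    have h2 := Real.exp_one_lt_d9
    linarith
  have hcard : s.card ≤ Fintype.card ι := (card_le_card (subset_univ s)).trans (le_of_eq card_univ)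
  calc ∏ k ∈ s, ∑ m ∈ cell z y V Y (π k), gw (w k) c m * hh m
      ≤ ∏ k ∈ s, (C * (if π k = 2 then (Real.log y) ^ (w k) else Real.log V)) := by
        apply prod_le_prod
        · intro k _
          exact sum_nonneg fun m hm => gh_nonneg hB k (cell_sub _ _ _ _ _ hm)
        · intro k hk
          exact cs_low hB hy hV k (hs k hk)
    _ = C ^ s.card * ((∏ k ∈ s.filter (fun k => π k = 2), (Real.log y) ^ (w k)) *
          ∏ k ∈ s.filter (fun k => ¬ π k = 2), Real.log V) := by
        rw [prod_mul_distrib, prod_const, prod_ite]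
    _ ≤ C ^ (Fintype.card ι) * ((Real.log y) ^ (∑ k ∈ s.filter (fun k => π k = 2), w k) *
          (Real.log V) ^ (Fintype.card ι)) := by
        apply mul_le_mul (pow_le_pow_right₀ hB.C1 hcard) _ _ (by positivity)
        · apply mul_le_mul
          · rw [← Real.rpow_sum_of_pos hly0]
          · rw [prod_const]
            exact pow_le_pow_right₀ hlV ((card_filter_le _ _).trans hcard)
          · positivity
          · positivity
        · apply mul_nonneg
          · exact prod_nonneg fun _ _ => by positivity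
          · exact prod_nonneg fun _ _ => by positivity
    _ = _ := by ring

/-- a huge variable -/
lemma tail_case (hB : Bd w κ c z C) (A : ℕ) {K : ℝ} (hK : 0 ≤ K) (π : ι → Fin 4) {k : ι}
    (hk : π k = 3) : ∃ C' : ℝ, ∀ y, z < y →
      |∑ d ∈ Fintype.piFinset (fun b => cell z y (VV A (Real.log y)) (YY A (Real.log y)) (π b)),
        HH w L κ c d| ≤ C' * (Real.log y) ^ K := by
  have hcz : c ≤ z := by have := hB.zc; omega
  have hC0 : 0 ≤ C := zero_le_one.trans hB.C1
  refine ⟨C ^ (Fintype.card ι + 1) * (Fintype.card ι + 2).factorial, fun y hy => ?_⟩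
  have hly := one_le_log hB.z2 hy
  have hly0 : 0 < Real.log y := by linarith
  set l := Real.log y with hl
  set V := VV A l with hV
  set Y := YY A l with hY
  refine (triv (fun i => (hB.w0 i).le) hcz fun i => cell_sub _ _ _ _ _).trans ?_
  have h1 : ∏ i, ∑ m ∈ cell z y V Y (π i), gw (w i) c m ≤
      ∏ i, ∑ m ∈ cell z y V Y (π i), gw (w i) c m * hh m := by
    apply prod_le_prod
    · intro i _
      exact sum_nonneg fun m hm => gw_nonneg (hB.w0 i).le hcz (cell_sub _ _ _ _ _ hm)
    · intro i _
      exact sum_le_sum fun m hm => gw_le_hh hB i (cell_sub _ _ _ _ _ hm)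
  refine h1.trans ?_
  rw [← mul_prod_erase univ _ (mem_univ k), hk]
  have h2 : ∑ m ∈ cell z y V Y 3, gw (w k) c m * hh m ≤ C * Real.exp (-l) * l ^ 2 := by
    have hV3 := three_le_VV A l
    have hVY := VV_le_YY A l
    calc ∑ m ∈ cell z y V Y 3, gw (w k) c m * hh m
        ≤ ∑ m ∈ (PP z y).divisors.filter (fun d => Y < d), gw (w k) c m * hh m := by
          apply sum_le_sum_of_subset_of_nonneg
          · intro m hm
            rw [mem_filter]
            exact ⟨cell_sub _ _ _ _ _ hm, cell_three hm⟩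
          · intro m hm _
            exact gh_nonneg hB k (mem_filter.1 hm).1
      _ ≤ C * Real.exp (-(Real.log Y / Real.log y)) * (Real.log y) ^ 2 :=
          hB.F3 k y Y hy (by omega)
      _ ≤ C * Real.exp (-l) * l ^ 2 := by
          apply mul_le_mul_of_nonneg_right _ (by positivity)
          apply mul_le_mul_of_nonneg_left _ hC0
          apply Real.exp_le_exp.2
          rw [neg_le_neg_iff, le_div_iff₀ hly0]
          have := log_YY_ge A l
          nlinarith
  have h3 : ∏ b ∈ univ.erase k, ∑ m ∈ cell z y V Y (π b), gw (w b) c m * hh m ≤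
      (C * l) ^ (Fintype.card ι) := by
    have hCl : 1 ≤ C * l := by nlinarith [hB.C1]
    calc _ ≤ ∏ b ∈ univ.erase k, (C * l) := by
          apply prod_le_prod
          · intro b _
            exact sum_nonneg fun m hm => gh_nonneg hB b (cell_sub _ _ _ _ _ hm)
          · intro b _
            exact cs_any hB hy V Y b (π b)
      _ = (C * l) ^ (univ.erase k).card := by rw [prod_const]
      _ ≤ _ := by
          apply pow_le_pow_right₀ hCl
          exact (card_le_card (erase_subset _ _)).trans (le_of_eq card_univ)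
  have h4 : 1 ≤ l ^ K := Real.one_le_rpow hly hK
  have h5 := exp_neg_pow (Fintype.card ι + 2) hly
  calc _ ≤ C * Real.exp (-l) * l ^ 2 * (C * l) ^ (Fintype.card ι) := by
        apply mul_le_mul h2 h3 _ (by positivity)
        exact prod_nonneg fun b _ => sum_nonneg fun m hm => gh_nonneg hB b (cell_sub _ _ _ _ _ hm)
    _ = C ^ (Fintype.card ι + 1) * (Real.exp (-l) * l ^ (Fintype.card ι + 2)) := by ring
    _ ≤ C ^ (Fintype.card ι + 1) * (Fintype.card ι + 2).factorial :=
        mul_le_mul_of_nonneg_left h5 (by positivity)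
    _ ≤ _ := le_mul_of_one_le_right (by positivity) h4

/-- two linked large variables -/
lemma link_case (hB : Bd w κ c z C) {C2 : ℝ} {E2 : ℕ} (hC2 : 0 ≤ C2) (h2 : BW C2 E2)
    (hL : ∀ i, L i i = false) {A : ℕ} (hA : 6 * (Fintype.card ι + 2 * E2) ≤ A) {K : ℝ} (hK : 0 ≤ K)
    (π : ι → Fin 4) {i j : ι} (hi : π i = 2) (hj : π j = 2) (hij : L i j ≠ L j i) :
    ∃ C' : ℝ, ∀ y, z < y →
      |∑ d ∈ Fintype.piFinset (fun b => cell z y (VV A (Real.log y)) (YY A (Real.log y)) (π b)),
        HH w L κ c d| ≤ C' * (Real.log y) ^ K := by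
  have hC0 : 0 ≤ C := zero_le_one.trans hB.C1
  refine ⟨C ^ (Fintype.card ι) * C2 * (A + 3) ^ E2, fun y hy => ?_⟩
  have hly := one_le_log hB.z2 hy
  have hly0 : 0 < Real.log y := by linarith
  set l := Real.log y with hl
  set V := VV A l with hV
  set Y := YY A l with hY
  have hV3 : 3 ≤ V := three_le_VV A l
  have hVY : V ≤ Y := VV_le_YY A l
  have hne : i ≠ j := by rintro rfl; exact hij rfl
  have hc2 : ∀ b, π b = 2 → cell z y V Y (π b) = lg z y V Y := fun b hb => by
    rw [hb]; exact cell_two (by omega)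
  have hmain : |∑ d ∈ Fintype.piFinset (fun b => cell z y V Y (π b)), HH w L κ c d| ≤
      (C * l) ^ (Fintype.card ι) * (C2 * (Real.log Y) ^ E2 * (V : ℝ) ^ (-(1 / 6 : ℝ))) := by
    rcases h1 : L i j with _ | _
    · rcases h1' : L j i with _ | _
      · rw [h1, h1'] at hij; exact absurd rfl hij
      · exact pair_case hB hC2 h2 hne.symm (hL j) h1' h1 hy (by omega) hVY
          (fun b => cell_sub _ _ _ _ _) (hc2 j hj) (hc2 i hi)
    · rcases h1' : L j i with _ | _
      · exact pair_case hB hC2 h2 hne (hL i) h1 h1' hy (by omega) hVY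
          (fun b => cell_sub _ _ _ _ _) (hc2 i hi) (hc2 j hj)
      · rw [h1, h1'] at hij; exact absurd rfl hij
  refine hmain.trans ?_
  have h3 : Real.log Y ≤ (A + 3) * l ^ 2 := log_YY_le hly
  have h3' : 0 ≤ Real.log Y := Real.log_natCast_nonneg Y
  have h4 : (V : ℝ) ^ (-(1 / 6 : ℝ)) ≤ (l ^ (Fintype.card ι + 2 * E2))⁻¹ := by
    have h5 : l ^ (6 * (Fintype.card ι + 2 * E2)) ≤ V :=
      (pow_le_pow_right₀ hly hA).trans (VV_ge A l)
    have h6 : (0 : ℝ) < l ^ (6 * (Fintype.card ι + 2 * E2)) := by positivity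
    have h7 : (V : ℝ) ^ (-(1 / 6 : ℝ)) ≤ (l ^ (6 * (Fintype.card ι + 2 * E2))) ^ (-(1 / 6 : ℝ)) :=
      Real.rpow_le_rpow_of_nonpos h6 h5 (by norm_num)
    refine h7.trans (le_of_eq ?_)
    rw [← Real.rpow_natCast l, ← Real.rpow_mul hly0.le, ← Real.rpow_natCast l,
      ← Real.rpow_neg hly0.le]
    congr 1
    push_cast
    ring
  have h8 : (1 : ℝ) ≤ l ^ K := Real.one_le_rpow hly hK
  calc (C * l) ^ (Fintype.card ι) * (C2 * (Real.log Y) ^ E2 * (V : ℝ) ^ (-(1 / 6 : ℝ)))
      ≤ (C * l) ^ (Fintype.card ι) * (C2 * ((A + 3) * l ^ 2) ^ E2 *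
          (l ^ (Fintype.card ι + 2 * E2))⁻¹) := by
        apply mul_le_mul_of_nonneg_left _ (by positivity)
        apply mul_le_mul _ h4 (by positivity) (by positivity)
        exact mul_le_mul_of_nonneg_left (pow_le_pow_left₀ h3' h3 _) hC2
    _ = C ^ (Fintype.card ι) * C2 * (A + 3) ^ E2 := by
        rw [mul_pow, mul_pow, ← pow_mul, pow_add]
        field_simp
    _ ≤ _ := le_mul_of_one_le_right (by positivity) h8

/-- unlinked large variables: the trivial bound -/
lemma triv_case (hB : Bd w κ c z C) (A : ℕ) {K : ℝ} (π : ι → Fin 4) (h3 : ∀ k, π k ≠ 3)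
    (hK : ∑ k ∈ univ.filter (fun k => π k = 2), w k < K) :
    ∃ C' : ℝ, ∀ y, z < y →
      |∑ d ∈ Fintype.piFinset (fun b => cell z y (VV A (Real.log y)) (YY A (Real.log y)) (π b)),
        HH w L κ c d| ≤ C' * (Real.log y) ^ K := by
  have hcz : c ≤ z := by have := hB.zc; omega
  have hC0 : 0 ≤ C := zero_le_one.trans hB.C1
  set S := ∑ k ∈ univ.filter (fun k => π k = 2), w k with hS
  obtain ⟨C1, hC1, h1⟩ := log_VV_pow_le A (Fintype.card ι) (sub_pos.2 hK)
  refine ⟨C ^ (Fintype.card ι) * C1, fun y hy => ?_⟩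
  have hly := one_le_log hB.z2 hy
  have hly0 : 0 < Real.log y := by linarith
  set l := Real.log y with hl
  set V := VV A l with hV
  set Y := YY A l with hY
  refine (triv (fun i => (hB.w0 i).le) hcz fun i => cell_sub _ _ _ _ _).trans ?_
  have e1 : ∏ i, ∑ m ∈ cell z y V Y (π i), gw (w i) c m ≤
      ∏ i, ∑ m ∈ cell z y V Y (π i), gw (w i) c m * hh m := by
    apply prod_le_prod
    · intro i _
      exact sum_nonneg fun m hm => gw_nonneg (hB.w0 i).le hcz (cell_sub _ _ _ _ _ hm)
    · intro i _
      exact sum_le_sum fun m hm => gw_le_hh hB i (cell_sub _ _ _ _ _ hm)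
  refine e1.trans ((prod_low hB hy (three_le_VV A l) π univ fun k _ => h3 k).trans ?_)
  rw [← hS]
  calc C ^ (Fintype.card ι) * l ^ S * (Real.log V) ^ (Fintype.card ι)
      ≤ C ^ (Fintype.card ι) * l ^ S * (C1 * l ^ (K - S)) :=
        mul_le_mul_of_nonneg_left (h1 l hly) (by positivity)
    _ = C ^ (Fintype.card ι) * C1 * (l ^ S * l ^ (K - S)) := by ring
    _ = _ := by rw [← Real.rpow_add hly0]; congr 2; ring

/-- all variables are 1 or large and unlinked -/
lemma diag_case (hB : Bd w κ c z C) (A : ℕ) {K : ℝ} (π : ι → Fin 4)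
    (h3 : ∀ k, π k = 0 ∨ π k = 2) (hK : ∑ k ∈ univ.filter (fun k => π k = 2), w k ≤ K) :
    ∃ C' : ℝ, ∀ y, z < y →
      |∑ d ∈ Fintype.piFinset (fun b => cell z y (VV A (Real.log y)) (YY A (Real.log y)) (π b)),
        HH w L κ c d| ≤ C' * (Real.log y) ^ K := by
  have hcz : c ≤ z := by have := hB.zc; omega
  have hC0 : 0 ≤ C := zero_le_one.trans hB.C1
  refine ⟨C ^ (Fintype.card ι), fun y hy => ?_⟩
  have hly := one_le_log hB.z2 hy
  have hly0 : 0 < Real.log y := by linarith
  set l := Real.log y with hl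
  set V := VV A l with hV
  set Y := YY A l with hY
  refine (triv (fun i => (hB.w0 i).le) hcz fun i => cell_sub _ _ _ _ _).trans ?_
  have e1 : ∀ k ∈ (univ : Finset ι), ∑ m ∈ cell z y V Y (π k), gw (w k) c m ≤
      C * (if π k = 2 then l ^ (w k) else 1) := by
    intro k _
    rcases h3 k with h | h
    · rw [h, if_neg (by decide)]
      calc ∑ m ∈ cell z y V Y 0, gw (w k) c m ≤ ∑ m ∈ ({1} : Finset ℕ), gw (w k) c m := by
            apply sum_le_sum_of_subset_of_nonneg
            · intro m hm
              rw [mem_singleton]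
              exact cell_zero hm
            · intro m hm _
              rw [mem_singleton] at hm
              rw [hm, gw_one]
              exact zero_le_one
        _ ≤ C * 1 := by
            rw [sum_singleton, gw_one, mul_one]
            exact hB.C1
    · rw [if_pos h]
      calc ∑ m ∈ cell z y V Y (π k), gw (w k) c m ≤ ∑ m ∈ cell z y V Y (π k), gw (w k) c m * hh m :=
            sum_le_sum fun m hm => gw_le_hh hB k (cell_sub _ _ _ _ _ hm)
        _ ≤ ∑ m ∈ (PP z y).divisors, gw (w k) c m * hh m :=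
            sum_le_sum_of_subset_of_nonneg (cell_sub _ _ _ _ _) fun m hm _ => gh_nonneg hB k hm
        _ ≤ _ := hB.F1 k y hy
  calc ∏ k, ∑ m ∈ cell z y V Y (π k), gw (w k) c m
      ≤ ∏ k, (C * (if π k = 2 then l ^ (w k) else 1)) := by
        apply prod_le_prod _ e1
        intro k _
        exact sum_nonneg fun m hm => gw_nonneg (hB.w0 k).le hcz (cell_sub _ _ _ _ _ hm)
    _ = C ^ (Fintype.card ι) * l ^ (∑ k ∈ univ.filter (fun k => π k = 2), w k) := by
        rw [prod_mul_distrib, prod_const, prod_ite, prod_const_one, mul_one,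
          ← Real.rpow_sum_of_pos hly0, card_univ]
    _ ≤ _ := by
        apply mul_le_mul_of_nonneg_left _ (by positivity)
        exact Real.rpow_le_rpow_of_exponent_le hly hK

/-- maximal unlinked large variables and a small variable different from 1 -/
lemma max_case (hB : Bd w κ c z C) (hL : ∀ i, L i i = false) (A : ℕ) {K : ℝ} (π : ι → Fin 4)
    (h3 : ∀ k, π k ≠ 3) {i j : ι} (hi : π i = 2) (hj : π j = 1) (hij : L i j ≠ L j i)
    (hun : ∀ k, π k = 2 → L i k = L k i)
    (hK : ∑ k ∈ univ.filter (fun k => π k = 2), w k ≤ K) :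
    ∃ C' : ℝ, ∀ y, z < y →
      |∑ d ∈ Fintype.piFinset (fun b => cell z y (VV A (Real.log y)) (YY A (Real.log y)) (π b)),
        HH w L κ c d| ≤ C' * (Real.log y) ^ K := by
  have hC0 : 0 ≤ C := zero_le_one.trans hB.C1
  have hne : j ≠ i := by rintro rfl; exact hij rfl
  set S := ∑ k ∈ univ.filter (fun k => π k = 2), w k with hS
  set M := Fintype.card ι with hM
  obtain ⟨C1, hC1, h1⟩ := log_VV_pow_le A (M + 1) (hB.w0 i)
  refine ⟨C ^ M * C1 * (C * (M + 1) + C + C * 2), fun y hy => ?_⟩
  have hly := one_le_log hB.z2 hy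
  have hly0 : 0 < Real.log y := by linarith
  set l := Real.log y with hl
  set V := VV A l with hV
  set Y := YY A l with hY
  have hV3 : 3 ≤ V := three_le_VV A l
  have hVY : V ≤ Y := VV_le_YY A l
  have hlV : 1 ≤ Real.log V := one_le_log_VV A l
  have hcase := char_case (L := L) hB i (hL i) (V := V) (Y := Y) hy (by omega) hVY
    (t := fun b => cell z y V Y (π b)) (fun b => cell_sub _ _ _ _ _)
    (by simp only [hi]; exact cell_two (by omega)) M (by
      intro e he
      have hmem : ∀ b, b ≠ i → e b ∈ cell z y V Y (π b) := by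
        intro b hb
        have := Fintype.mem_piFinset.1 he b
        rwa [Function.update_of_ne hb] at this
      have hjf : j ∈ (univ.erase i).filter (fun b => L i b ≠ L b i) := by
        rw [mem_filter, mem_erase]
        exact ⟨⟨hne, mem_univ j⟩, hij⟩
      have hje : 1 < e j ∧ e j ≤ V := by
        have := hmem j hne
        rw [hj] at this
        exact cell_one this
      have hpos : ∀ b ∈ (univ.erase i).filter (fun b => L i b ≠ L b i), 0 < e b ∧ e b ≤ V := by
        intro b hb
        rw [mem_filter, mem_erase] at hb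
        have hm := hmem b hb.1.1
        refine ⟨dv_pos (cell_sub _ _ _ _ _ hm), ?_⟩
        have h2 : π b ≠ 2 := fun h => hb.2 (hun b h)
        have : π b = 0 ∨ π b = 1 := by
          have h3b := h3 b
          revert h2 h3b
          generalize π b = r
          revert r
          decide
        rcases this with h | h
        · rw [h] at hm
          have := cell_zero hm
          omega
        · rw [h] at hm
          exact (cell_one hm).2
      constructor
      · unfold lk
        rw [← mul_prod_erase _ _ hjf]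
        have : 0 < ∏ b ∈ ((univ.erase i).filter (fun b => L i b ≠ L b i)).erase j, e b :=
          prod_pos fun b hb => (hpos b (mem_erase.1 hb).2).1
        nlinarith [hje.1]
      · unfold lk
        calc ∏ b ∈ (univ.erase i).filter (fun b => L i b ≠ L b i), e b
            ≤ ∏ b ∈ (univ.erase i).filter (fun b => L i b ≠ L b i), V :=
              prod_le_prod' fun b hb => (hpos b hb).2
          _ = V ^ ((univ.erase i).filter (fun b => L i b ≠ L b i)).card := by rw [prod_const]
          _ ≤ V ^ M := Nat.pow_le_pow_right (by omega)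
              ((card_le_card (subset_univ _)).trans (le_of_eq card_univ)))
  refine hcase.trans ?_
  have hPL := prod_low hB hy (V := V) (Y := Y) hV3 π (univ.erase i) fun k _ => h3 k
  have hsum : ∑ k ∈ (univ.erase i).filter (fun k => π k = 2), w k = S - w i := by
    have : (univ.erase i).filter (fun k => π k = 2) = (univ.filter (fun k => π k = 2)).erase i := by
      ext k
      simp only [mem_filter, mem_erase, mem_univ, and_true, true_and]
    rw [this, hS, ← add_sum_erase _ _ (show i ∈ univ.filter (fun k => π k = 2) by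
      rw [mem_filter]; exact ⟨mem_univ i, hi⟩)]
    ring
  rw [hsum] at hPL
  have hlY : l ≤ Real.log Y / l := by
    rw [le_div_iff₀ hly0]
    have := log_YY_ge A l
    nlinarith
  have hbr : C * (M * Real.log V) ^ (w i) + C * (Real.log V) ^ (w i) +
      C * Real.exp (-(Real.log Y / Real.log y)) * (Real.log y) ^ 2 ≤
      (C * (M + 1) + C + C * 2) * Real.log V := by
    have hM0 : (0 : ℝ) ≤ M := Nat.cast_nonneg M
    have e1 : (M * Real.log V) ^ (w i) ≤ (M + 1) * Real.log V := by
      have a1 : (M * Real.log V) ^ (w i) ≤ ((M + 1) * Real.log V) ^ (w i) :=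
        Real.rpow_le_rpow (by positivity) (by nlinarith) (hB.w0 i).le
      have a2 : 1 ≤ (M + 1) * Real.log V := by nlinarith
      have a3 : ((M + 1) * Real.log V) ^ (w i) ≤ ((M + 1) * Real.log V) ^ (1 : ℝ) :=
        Real.rpow_le_rpow_of_exponent_le a2 (by have := hB.w1 i; linarith)
      rw [Real.rpow_one] at a3
      exact a1.trans a3
    have e2 : (Real.log V) ^ (w i) ≤ Real.log V := by
      have a3 : (Real.log V) ^ (w i) ≤ (Real.log V) ^ (1 : ℝ) :=
        Real.rpow_le_rpow_of_exponent_le hlV (by have := hB.w1 i; linarith)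
      rwa [Real.rpow_one] at a3
    have e3 : Real.exp (-(Real.log Y / l)) * l ^ 2 ≤ 2 := by
      have a1 : Real.exp (-(Real.log Y / l)) ≤ Real.exp (-l) := Real.exp_le_exp.2 (by linarith)
      have a2 := exp_neg_pow 2 hly
      have a3 : ((Nat.factorial 2 : ℕ) : ℝ) = 2 := by norm_num [Nat.factorial]
      rw [a3] at a2
      exact (mul_le_mul_of_nonneg_right a1 (by positivity)).trans a2
    have e4 : C * Real.exp (-(Real.log Y / l)) * l ^ 2 ≤ C * 2 * Real.log V := by
      have b1 : C * (Real.exp (-(Real.log Y / l)) * l ^ 2) ≤ C * 2 :=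
        mul_le_mul_of_nonneg_left e3 hC0
      have b2 : C * 2 ≤ C * 2 * Real.log V := le_mul_of_one_le_right (by positivity) hlV
      calc _ = C * (Real.exp (-(Real.log Y / l)) * l ^ 2) := by ring
        _ ≤ _ := b1.trans b2
    have e5 := mul_le_mul_of_nonneg_left e1 hC0
    have e6 := mul_le_mul_of_nonneg_left e2 hC0
    calc _ ≤ C * ((M + 1) * Real.log V) + C * Real.log V + C * 2 * Real.log V :=
          add_le_add (add_le_add e5 e6) e4
      _ = _ := by ring
  have hbr0 : 0 ≤ C * (M * Real.log V) ^ (w i) + C * (Real.log V) ^ (w i) +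
      C * Real.exp (-(Real.log Y / Real.log y)) * (Real.log y) ^ 2 := by positivity
  have hVp := h1 l hly
  calc _ ≤ (C ^ M * l ^ (S - w i) * (Real.log V) ^ M) *
        ((C * (M + 1) + C + C * 2) * Real.log V) :=
        mul_le_mul hPL hbr hbr0 (by positivity)
    _ = C ^ M * (C * (M + 1) + C + C * 2) * l ^ (S - w i) * (Real.log V) ^ (M + 1) := by ring
    _ ≤ C ^ M * (C * (M + 1) + C + C * 2) * l ^ (S - w i) * (C1 * l ^ (w i)) :=
        mul_le_mul_of_nonneg_left hVp (by positivity)
    _ = C ^ M * C1 * (C * (M + 1) + C + C * 2) * (l ^ (S - w i) * l ^ (w i)) := by ring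
    _ = C ^ M * C1 * (C * (M + 1) + C + C * 2) * l ^ S := by
        rw [← Real.rpow_add hly0]; congr 2; ring
    _ ≤ _ := by
        apply mul_le_mul_of_nonneg_left _ (by positivity)
        exact Real.rpow_le_rpow_of_exponent_le hly hK

/-- all patterns -/
lemma pat (hB : Bd w κ c z C) {C2 : ℝ} {E2 : ℕ} (hC2 : 0 ≤ C2) (h2 : BW C2 E2)
    (hL : ∀ i, L i i = false) {K : ℝ}
    (hK : ∀ U : Finset ι, (∀ i ∈ U, ∀ j ∈ U, L i j = L j i) → ∑ i ∈ U, w i ≤ K)
    (π : ι → Fin 4) : ∃ C' : ℝ, ∀ y, z < y →
      |∑ d ∈ Fintype.piFinset (fun b => cell z y (VV (6 * (Fintype.card ι + 2 * E2)) (Real.log y))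
        (YY (6 * (Fintype.card ι + 2 * E2)) (Real.log y)) (π b)), HH w L κ c d| ≤
        C' * (Real.log y) ^ K := by
  have hK0 : 0 ≤ K := by simpa using hK ∅ (by simp)
  by_cases h3 : ∃ k, π k = 3
  · obtain ⟨k, hk⟩ := h3
    exact tail_case hB _ hK0 π hk
  push Not at h3
  by_cases hl : ∃ i j, π i = 2 ∧ π j = 2 ∧ L i j ≠ L j i
  · obtain ⟨i, j, hi, hj, hij⟩ := hl
    exact link_case hB hC2 h2 hL le_rfl hK0 π hi hj hij
  push Not at hl
  have hS : ∑ k ∈ univ.filter (fun k => π k = 2), w k ≤ K := by
    apply hK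
    intro i hi j hj
    exact hl i j (mem_filter.1 hi).2 (mem_filter.1 hj).2
  rcases hS.lt_or_eq with hlt | heq
  · exact triv_case hB _ π h3 hlt
  by_cases h1 : ∃ j, π j = 1
  · obtain ⟨j, hj⟩ := h1
    have hex : ∃ i, π i = 2 ∧ L i j ≠ L j i := by
      by_contra hcon
      push Not at hcon
      have hjn : j ∉ univ.filter (fun k => π k = 2) := by
        rw [mem_filter, hj]
        rintro ⟨-, h⟩
        exact absurd h (by decide)
      have := hK (insert j (univ.filter (fun k => π k = 2))) (by
        intro a ha b hb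
        rw [mem_insert] at ha hb
        rcases ha with rfl | ha
        · rcases hb with rfl | hb
          · rfl
          · exact (hcon b (mem_filter.1 hb).2).symm
        · rcases hb with rfl | hb
          · exact hcon a (mem_filter.1 ha).2
          · exact hl a b (mem_filter.1 ha).2 (mem_filter.1 hb).2)
      rw [sum_insert hjn, heq] at this
      have := hB.w0 j
      linarith
    obtain ⟨i, hi, hij⟩ := hex
    exact max_case hB hL _ π h3 hi hj hij (fun k hk => hl i k hi hk) hS
  · push Not at h1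
    refine diag_case hB _ π (fun k => ?_) hS
    have a1 := h1 k
    have a3 := h3 k
    revert a1 a3
    generalize π k = r
    revert r
    decide

end AT

/-- **The abstract bound** -/
theorem at_of (hb : BLW) (he : EP) (hf : FULL) : AT := by
  intro ι _ _ w L κ c K hw hL hκ hK
  classical
  obtain ⟨C2, E2, h2⟩ := hb
  choose zE hE using fun i => he (w i) c (κ i) (hw i).1 (hw i).2 (hκ i)
  choose zF hF using fun i => hf (w i) c (hw i).1 (hw i).2
  refine ⟨univ.sup zE + univ.sup zF + 2 * c + 2, fun z hz => ?_⟩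
  have hzE : ∀ i, zE i ≤ z := fun i => (le_sup (f := zE) (mem_univ i)).trans (by omega)
  have hzF : ∀ i, zF i ≤ z := fun i => (le_sup (f := zF) (mem_univ i)).trans (by omega)
  choose CE hCE using fun i => hE i z (hzE i)
  choose CF hCF1 hCF2 hCF3 using fun i => hF i z (hzF i)
  set C : ℝ := 1 + ∑ i, (|CE i| + |CF i|) with hC
  have hCi : ∀ i, |CE i| + |CF i| ≤ C := by
    intro i
    have h1 : |CE i| + |CF i| ≤ ∑ i, (|CE i| + |CF i|) :=
      single_le_sum (f := fun i => |CE i| + |CF i|) (fun j _ => by positivity) (mem_univ i)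
    linarith
  have hCE' : ∀ i, CE i ≤ C := fun i => by
    have := le_abs_self (CE i)
    have := abs_nonneg (CF i)
    linarith [hCi i]
  have hCF' : ∀ i, CF i ≤ C := fun i => by
    have := le_abs_self (CF i)
    have := abs_nonneg (CE i)
    linarith [hCi i]
  have hB : AT.Bd w κ c z C :=
    { w0 := fun i => (hw i).1
      w1 := fun i => (hw i).2
      z2 := by omega
      zc := by omega
      C1 := by
        rw [hC]
        have : 0 ≤ ∑ i, (|CE i| + |CF i|) := sum_nonneg fun i _ => by positivity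
        linarith
      F1 := fun i y hy => (hCF1 i y hy).trans (mul_le_mul_of_nonneg_right (hCF' i)
        (Real.rpow_nonneg (Real.log_natCast_nonneg y) _))
      F2 := fun i y V hy hV => (hCF2 i y V hy hV).trans (mul_le_mul_of_nonneg_right (hCF' i)
        (Real.rpow_nonneg (Real.log_natCast_nonneg V) _))
      F3 := fun i y Y hy hY => (hCF3 i y Y hy hY).trans (by
        apply mul_le_mul_of_nonneg_right _ (by positivity)
        exact mul_le_mul_of_nonneg_right (hCF' i) (Real.exp_pos _).le)
      E := fun i y R r e hy hR hr hs hp => (hCE i y R r e hy hR hr hs hp).trans (by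
        apply mul_le_mul_of_nonneg_right _ (hh_nonneg _)
        exact mul_le_mul_of_nonneg_right (hCE' i)
          (Real.rpow_nonneg (Real.log_natCast_nonneg r) _)) }
  have h2' : AT.BW |C2| E2 := fun V Y hV hVY a b ha hb ha' hb' =>
    (h2 V Y hV hVY a b ha hb ha' hb').trans (by
      apply mul_le_mul_of_nonneg_right _ (by positivity)
      exact mul_le_mul_of_nonneg_right (le_abs_self C2)
        (pow_nonneg (Real.log_natCast_nonneg Y) _))
  choose C' hC' using fun π : ι → Fin 4 => AT.pat hB (abs_nonneg C2) h2' hL hK π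
  refine ⟨∑ π, C' π, fun y hy => ?_⟩
  rw [AT.total_eq, AT.patterns z y (AT.VV (6 * (Fintype.card ι + 2 * E2)) (Real.log y))
    (AT.YY (6 * (Fintype.card ι + 2 * E2)) (Real.log y)), sum_mul]
  exact (abs_sum_le_sum_abs _ _).trans (sum_le_sum fun π _ => hC' π y hy)

end Pool.Agent.W262.RK
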