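import Mathlib
import Pool.Agent.W262.RK.Stm
import Pool.Agent.W262.RK.AT4
import Pool.Agent.W505.RK.LS
import Pool.Agent.W505.RK.RKB
import Pool.Agent.W37.RK.BL2
import Pool.Agent.W655.RK.Blw
import Pool.Agent.W655.RK.Ep
import Pool.Agent.W655.RK.Full
import Pool.Agent.W586.RK.UB
import Pool.Agent.W108.RK.EXP
import Pool.Agent.W108.RK.COMB
import Pool.Agent.W21.RK.SVproof
import Pool.Agent.W22.RK.Loc
import Pool.Agent.W214.RK.Half
import Pool.Agent.W599.RK.Desc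

/-!
# The main average
-/

namespace Pool.Agent.W262.RK

open Finset

theorem at_thm : AT :=
  at_of (Pool.Agent.W655.RK.blw_of (_root_.W37.RK.bl_of Pool.Agent.W505.RK.ls))
    (Pool.Agent.W655.RK.ep_of Pool.Agent.W586.RK.UB.ub) Pool.Agent.W655.RK.full

theorem desc_thm : DESC :=
  Pool.Agent.W599.RK.desc_of Pool.Agent.W22.RK.loc Pool.Agent.W22.RK.good
    Pool.Agent.W214.RK.half Pool.Agent.W505.RK.rkb

/-- the average of `NN` is bounded by `(log y) ^ (3 n)` -/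
theorem ma (J : Type) [Fintype J] [DecidableEq J] (cls : J → Fin 3) (κ : J → ℤ) (n c : ℕ)
    (hn : ∀ k, (univ.filter (fun j => cls j = k)).card = n) (hκ : ∀ j, κ j ≠ 0) :
    ∃ z0 : ℕ, ∀ z, z0 ≤ z → ∃ C : ℝ, ∀ y, z < y →
      ∑ s ∈ Tup J z y, (NN cls κ s : ℝ) * ∏ j, gw 1 c (s j) ≤
        C * (Real.log y) ^ (((3 * n : ℕ)) : ℝ) := by
  obtain ⟨z0, hz0⟩ := at_thm (J × Bool × Bool) (fun _ => 1 / 2) (LJ cls) (κJ κ) c
    (((3 * n : ℕ)) : ℝ) (fun _ => by norm_num) (fun i => by simp [LJ]) (fun i => by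
      unfold κJ; split_ifs
      · exact hκ _
      · exact one_ne_zero) (fun U hU => by
      have h := Pool.Agent.W108.RK.comb J cls n hn U hU
      rw [sum_const, nsmul_eq_mul]
      have h2 : (U.card : ℝ) ≤ ((6 * n : ℕ) : ℝ) := by exact_mod_cast h
      push_cast at h2 ⊢
      linarith)
  refine ⟨max z0 (2 + ∑ j, (κ j).natAbs), fun z hz => ?_⟩
  obtain ⟨C, hC⟩ := hz0 z (le_trans (le_max_left _ _) hz)
  refine ⟨C, fun y hy => ?_⟩
  have hz2 : 2 + ∑ j, (κ j).natAbs ≤ z := le_trans (le_max_right _ _) hz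
  rw [Pool.Agent.W108.RK.exp_id J cls κ c z y (by omega) hκ (fun j => by
    have := single_le_sum (f := fun j => (κ j).natAbs) (fun _ _ => Nat.zero_le _) (mem_univ j)
    omega)]
  exact le_trans (le_abs_self _) (hC y hy)

end Pool.Agent.W262.RK
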