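import Mathlib
import Pool.Agent.W262.RK.MA
import Pool.Agent.W262.RK.Stm2

/-!
# The main average, second edition
-/

namespace Pool.Agent.W262.RK

open Finset

variable {J : Type} [Fintype J] [DecidableEq J]

lemma Al_sing : ∀ (c : Fin 4) (v x : Bool × Bool), Al c v x = true →
    xor (x.1 && v.1) (x.2 && v.2) = false := by
  decide

lemma L4_self (cls : J → Fin 4) (i : I4 cls) : L4 cls i i = false :=
  Al_sing _ _ _ i.2

lemma w4_pos (cls : J → Fin 4) (i : I4 cls) : 0 < w4 cls i ∧ w4 cls i ≤ 1 / 2 := by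
  unfold w4
  split_ifs <;> norm_num

lemma κ4_ne (cls : J → Fin 4) (κ : J → Fin 3 → ℤ) (h : ∀ j k, κ j k ≠ 0) (i : I4 cls) :
    κ4 cls κ i ≠ 0 := by
  unfold κ4
  split_ifs
  · exact one_ne_zero
  · exact mul_ne_zero (h _ _) (h _ _)
  · exact mul_ne_zero (h _ _) (h _ _)
  · exact neg_ne_zero.2 (mul_ne_zero (h _ _) (h _ _))
  · exact h _ _

/-- the average of `NB` is bounded by `(log y) ^ |J|` -/
theorem ma4 (hexp : EXP4) (hcomb : COMB4) (cls : J → Fin 4) (κ : J → Fin 3 → ℤ) (n c : ℕ)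
    (hn : ∀ k, k ≠ 3 → (univ.filter (fun j => cls j = k)).card = n) (hκ : ∀ j k, κ j k ≠ 0) :
    ∃ z0 : ℕ, ∀ z, z0 ≤ z → ∃ C : ℝ, ∀ y, z < y →
      ∑ s ∈ Tup J z y, NB cls κ s * ∏ j, gw 1 c (s j) ≤
        C * (Real.log y) ^ (Fintype.card J) := by
  obtain ⟨z0, hz0⟩ := at_thm (I4 cls) (w4 cls) (L4 cls) (κ4 cls κ) c ((Fintype.card J : ℕ) : ℝ)
    (w4_pos cls) (L4_self cls) (κ4_ne cls κ hκ) (hcomb J cls n hn)
  refine ⟨max z0 (2 + ∑ j, ∑ k, (κ j k).natAbs), fun z hz => ?_⟩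
  obtain ⟨C, hC⟩ := hz0 z (le_trans (le_max_left _ _) hz)
  refine ⟨C, fun y hy => ?_⟩
  have hz2 : 2 + ∑ j, ∑ k, (κ j k).natAbs ≤ z := le_trans (le_max_right _ _) hz
  rw [hexp J cls κ c z y (by omega) hκ (fun j k => by
    have h1 := single_le_sum (f := fun k => (κ j k).natAbs) (fun _ _ => Nat.zero_le _) (mem_univ k)
    have h2 := single_le_sum (f := fun j => ∑ k, (κ j k).natAbs) (fun _ _ => Nat.zero_le _)
      (mem_univ j)
    omega)]
  refine (le_trans (le_abs_self _) (hC y hy)).trans (le_of_eq ?_)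
  rw [Real.rpow_natCast]

end Pool.Agent.W262.RK
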