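import Mathlib
import Pool.Agent.W262.RK.Stm2
import Pool.Agent.W262.RK.Bas

/-!
# Facts about the small parts
-/

namespace Pool.Agent.W262.RK

open Finset

/-- the product of the primes of `(z, y]` that divide `f` -/
def rp (z y : ℕ) (f : ℤ) : ℕ := ∏ p ∈ (PS z y).filter (fun p : ℕ => (p : ℤ) ∣ f), p

lemma rp_dvd (z y : ℕ) (f : ℤ) : rp z y f ∣ PP z y :=
  prod_dvd_prod_of_subset _ _ _ (filter_subset _ _)

lemma rp_pos (z y : ℕ) (f : ℤ) : 0 < rp z y f :=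
  Nat.pos_of_ne_zero fun h => PP_ne_zero z y (Nat.eq_zero_of_zero_dvd (h ▸ rp_dvd z y f))

lemma prime_dvd_prodS {S : Finset ℕ} (hS : ∀ p ∈ S, p.Prime) {q : ℕ} (hq : q.Prime) :
    q ∣ ∏ p ∈ S, p ↔ q ∈ S := by
  constructor
  · intro h
    obtain ⟨p, hp, hpq⟩ := (hq.prime.dvd_finsetProd_iff _).1 h
    rwa [(Nat.prime_dvd_prime_iff_eq hq (hS p hp)).1 hpq]
  · intro h
    exact dvd_prod_of_mem _ h

lemma prodS_dvd {S : Finset ℕ} (hS : ∀ p ∈ S, p.Prime) {n : ℤ} (h : ∀ p ∈ S, (p : ℤ) ∣ n) :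
    ((∏ p ∈ S, p : ℕ) : ℤ) ∣ n := by
  push_cast
  apply Finset.prod_dvd_of_coprime
  · intro p hp q hq hpq
    exact Nat.isCoprime_iff_coprime.2 ((Nat.coprime_primes (hS p hp) (hS q hq)).2 hpq)
  · exact h

lemma mem_dvd_rp {z y p : ℕ} {f : ℤ} (hp : p.Prime) :
    p ∣ rp z y f ↔ p ∈ PS z y ∧ (p : ℤ) ∣ f := by
  unfold rp
  rw [prime_dvd_prodS (fun p hp => (mem_PS.1 (mem_filter.1 hp).1).2) hp, mem_filter]

lemma rp_mul {z y Y : ℕ} (h1 : z ≤ y) (h2 : y ≤ Y) (f : ℤ) :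
    rp z Y f = rp z y f * rp y Y f := by
  unfold rp
  rw [← prod_union]
  · congr 1
    rw [← filter_union]
    congr 1
    ext p
    rw [mem_union, mem_PS, mem_PS, mem_PS]
    constructor
    · rintro ⟨⟨h3, h4⟩, h5⟩
      rcases Nat.lt_or_ge y p with h | h
      · exact Or.inr ⟨⟨h, h4⟩, h5⟩
      · exact Or.inl ⟨⟨h3, h⟩, h5⟩
    · rintro (⟨⟨h3, h4⟩, h5⟩ | ⟨⟨h3, h4⟩, h5⟩)
      · exact ⟨⟨h3, by omega⟩, h5⟩
      · exact ⟨⟨by omega, h4⟩, h5⟩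
  · rw [disjoint_left]
    intro p hp hp'
    have h3 := mem_PS.1 (mem_filter.1 hp).1
    have h4 := mem_PS.1 (mem_filter.1 hp').1
    omega

variable {J : Type}

lemma s1_mul_s2 (α β : J → ℤ) (z y : ℕ) (t : ℤ) (j : J) :
    s1 α β z y t j * s2 α β z y t j = rp z y (ff α β t j) := by
  unfold s1 s2 rp
  rw [← prod_union]
  · congr 1
    ext p
    rw [mem_union, mem_filter, mem_filter, mem_filter]
    constructor
    · rintro (⟨h1, h2, _⟩ | ⟨h1, h2⟩)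
      · exact ⟨h1, h2⟩
      · exact ⟨h1, (Dvd.intro_left _ (by ring : (p : ℤ) * p = (p : ℤ) ^ 2)).trans h2⟩
    · rintro ⟨h1, h2⟩
      by_cases h : (p : ℤ) ^ 2 ∣ ff α β t j
      · exact Or.inr ⟨h1, h⟩
      · exact Or.inl ⟨h1, h2, h⟩
  · rw [disjoint_left]
    intro p hp hp'
    exact (mem_filter.1 hp).2.2 (mem_filter.1 hp').2

lemma s1_dvd_rp (α β : J → ℤ) (z y : ℕ) (t : ℤ) (j : J) :
    s1 α β z y t j ∣ rp z y (ff α β t j) := Dvd.intro _ (s1_mul_s2 α β z y t j)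

lemma s2_dvd_rp (α β : J → ℤ) (z y : ℕ) (t : ℤ) (j : J) :
    s2 α β z y t j ∣ rp z y (ff α β t j) := Dvd.intro_left _ (s1_mul_s2 α β z y t j)

variable [Fintype J] [DecidableEq J]

lemma mem_Tup' {z y : ℕ} {d : J → ℕ} :
    d ∈ Tup J z y ↔ (∀ i, d i ∣ PP z y) ∧ ∀ i j, i ≠ j → (d i).Coprime (d j) := by
  unfold Tup
  rw [mem_filter, Fintype.mem_piFinset]
  simp only [Nat.mem_divisors]
  constructor
  · rintro ⟨h1, h2⟩
    exact ⟨fun i => (h1 i).1, h2⟩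
  · rintro ⟨h1, h2⟩
    exact ⟨fun i => ⟨h1 i, PP_ne_zero z y⟩, h2⟩

lemma Tup_dvd {z y : ℕ} {d e : J → ℕ} (hd : d ∈ Tup J z y) (h : ∀ j, e j ∣ d j) :
    e ∈ Tup J z y := by
  rw [mem_Tup'] at hd ⊢
  exact ⟨fun i => (h i).trans (hd.1 i), fun i j hij =>
    Nat.Coprime.coprime_dvd_left (h i) (Nat.Coprime.coprime_dvd_right (h j) (hd.2 i j hij))⟩

lemma bg_not_dvd {α β : J → ℤ} {z : ℕ} (hB : Bg α β z) {p : ℕ} (hp : p.Prime)
    (hz : z < p) {t : ℤ} {j l : J} (hjl : j ≠ l) (hj : (p : ℤ) ∣ ff α β t j) :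
    ¬ (p : ℤ) ∣ ff α β t l := by
  intro h
  apply (hB.2 p hp hz).2 j l hjl
  have : Res α β j l = α j * ff α β t l - α l * ff α β t j := by unfold Res ff; ring
  rw [this]
  exact dvd_sub (h.mul_left _) (hj.mul_left _)

lemma rp_mem {α β : J → ℤ} {z x y : ℕ} (hB : Bg α β z) (hx : z ≤ x) (t : ℤ) :
    (fun j => rp x y (ff α β t j)) ∈ Tup J x y := by
  rw [mem_Tup']
  refine ⟨fun j => rp_dvd _ _ _, fun i j hij => ?_⟩
  rw [Nat.coprime_iff_gcd_eq_one]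
  by_contra hne
  obtain ⟨p, hp, hpd⟩ := Nat.exists_prime_and_dvd hne
  have h1 := (mem_dvd_rp hp).1 (hpd.trans (Nat.gcd_dvd_left _ _))
  have h2 := (mem_dvd_rp hp).1 (hpd.trans (Nat.gcd_dvd_right _ _))
  exact bg_not_dvd hB hp (lt_of_le_of_lt hx (mem_PS.1 h1.1).1.1) hij h1.2 h2.2

lemma s1_mem {α β : J → ℤ} {z y : ℕ} (hB : Bg α β z) (t : ℤ) : s1 α β z y t ∈ Tup J z y :=
  Tup_dvd (rp_mem hB le_rfl t) (fun j => s1_dvd_rp α β z y t j)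

lemma s2_mem {α β : J → ℤ} {z y : ℕ} (hB : Bg α β z) (t : ℤ) : s2 α β z y t ∈ Tup J z y :=
  Tup_dvd (rp_mem hB le_rfl t) (fun j => s2_dvd_rp α β z y t j)

lemma Tup_prod_dvd {z y : ℕ} {d : J → ℕ} (hd : d ∈ Tup J z y) : ∏ j, d j ∣ PP z y := by
  rw [mem_Tup'] at hd
  apply Finset.prod_dvd_of_isRelPrime
  · intro i _ j _ hij
    exact Nat.coprime_iff_isRelPrime.1 (hd.2 i j hij)
  · intro j _
    exact hd.1 j

lemma one_mem_Tup (z y : ℕ) : (fun _ => 1 : J → ℕ) ∈ Tup J z y := by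
  rw [mem_Tup']
  exact ⟨fun _ => one_dvd _, fun _ _ _ => Nat.coprime_one_left _⟩

lemma Tup_pos {z y : ℕ} {d : J → ℕ} (hd : d ∈ Tup J z y) (j : J) : 0 < d j :=
  Nat.pos_of_ne_zero fun h => PP_ne_zero z y (Nat.eq_zero_of_zero_dvd (h ▸ (mem_Tup'.1 hd).1 j))

end Pool.Agent.W262.RK
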