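import Mathlib
import Pool.Agent.W262.RK.NT1
import Pool.Agent.W262.RK.MA4

/-!
# The local conditions for the families with four classes
-/

namespace Pool.Agent.W262.RK

open Finset

variable {J : Type} [Fintype J] [DecidableEq J]

/-- the forms of the class `k` and the common factors -/
def fs (cls : J → Fin 4) (k : Fin 3) : Finset J :=
  univ.filter (fun l => cls l = k.castSucc ∨ cls l = 3)

/-- `F_k(t)` -/
def F4 (cls : J → Fin 4) (a : Fin 3 → ℤ) (α β : J → ℤ) (t : ℤ) (k : Fin 3) : ℤ :=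
  a k * ∏ l ∈ fs cls k, ff α β t l

/-- the partner class -/
def cp4 (c : Fin 4) : Fin 3 := if c = 0 then 1 else 0

/-- the sign -/
def sg4 (c : Fin 4) : ℤ := if c = 2 then 1 else -1

/-- the constants -/
def kap4 (cls : J → Fin 4) (a : Fin 3 → ℤ) (α β : J → ℤ) (j : J) (k : Fin 3) : ℤ :=
  if cls j = 3 then
    (α j) ^ ((fs cls k).erase j).card * (a k * ∏ l ∈ (fs cls k).erase j, Res α β j l)
  else sg4 (cls j) * (α j) ^ (fs cls (cp4 (cls j))).card *
    (a (cp4 (cls j)) * ∏ l ∈ fs cls (cp4 (cls j)), Res α β j l)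

lemma cp4_ne : ∀ c : Fin 4, c ≠ 3 → (cp4 c).castSucc ≠ c := by decide

lemma sg4_sq (c : Fin 4) : sg4 c * sg4 c = 1 := by
  unfold sg4; split_ifs <;> rfl

lemma sg4_ne (c : Fin 4) : sg4 c ≠ 0 := by
  unfold sg4; split_ifs <;> norm_num

lemma ne_of_fs {cls : J → Fin 4} {j l : J} {k : Fin 3} (h3 : cls j ≠ 3) (hk : k.castSucc ≠ cls j)
    (hl : l ∈ fs cls k) : j ≠ l := by
  rintro rfl
  rcases (mem_filter.1 hl).2 with h | h
  · exact hk h.symm
  · exact h3 h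

lemma kap4_ne (cls : J → Fin 4) (a : Fin 3 → ℤ) (α β : J → ℤ) (hα : ∀ j, α j ≠ 0)
    (ha : ∀ k, a k ≠ 0) (hR : ∀ j l, j ≠ l → Res α β j l ≠ 0) (j : J) (k : Fin 3) :
    kap4 cls a α β j k ≠ 0 := by
  unfold kap4
  split_ifs with h
  · refine mul_ne_zero (pow_ne_zero _ (hα j)) (mul_ne_zero (ha _) ?_)
    exact prod_ne_zero_iff.2 fun l hl => hR j l (mem_erase.1 hl).1.symm
  · refine mul_ne_zero (mul_ne_zero (sg4_ne _) (pow_ne_zero _ (hα j))) (mul_ne_zero (ha _) ?_)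
    exact prod_ne_zero_iff.2 fun l hl => hR j l (ne_of_fs h (cp4_ne _ h) hl)

/-- the large primes do not divide the leading coefficients either -/
def Big4 (a : Fin 3 → ℤ) (α β : J → ℤ) (z : ℕ) : Prop :=
  Bg α β z ∧ ∀ p : ℕ, p.Prime → z < p → ∀ k, ¬ (p : ℤ) ∣ a k

lemma nd4 {a : Fin 3 → ℤ} {α β : J → ℤ} {z : ℕ} (hB : Big4 a α β z) {p : ℕ}
    (hp : p.Prime) (hz : z < p) {t : ℤ} {j : J} (hj : (p : ℤ) ∣ ff α β t j) {k : Fin 3}
    {S : Finset J} (hS : j ∉ S) : ¬ (p : ℤ) ∣ a k * ∏ l ∈ S, ff α β t l := by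
  intro h
  have hpi : Prime (p : ℤ) := Nat.prime_iff_prime_int.1 hp
  rcases hpi.dvd_or_dvd h with h1 | h1
  · exact hB.2 p hp hz k h1
  · obtain ⟨l, hl, hl2⟩ := (hpi.dvd_finsetProd_iff _).1 h1
    refine bg_not_dvd hB.1 hp hz (j := j) (l := l) ?_ hj hl2
    rintro rfl
    exact hS hl

lemma F4_split {cls : J → Fin 4} {a : Fin 3 → ℤ} {α β : J → ℤ} {t : ℤ} {j : J} {k : Fin 3}
    (hj : j ∈ fs cls k) : F4 cls a α β t k =
      ff α β t j * (a k * ∏ l ∈ (fs cls k).erase j, ff α β t l) := by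
  unfold F4
  rw [← mul_prod_erase _ _ hj]
  ring

lemma d4 {cls : J → Fin 4} {a : Fin 3 → ℤ} {α β : J → ℤ} {z : ℕ} (hB : Big4 a α β z) {p : ℕ}
    (hp : p.Prime) (hz : z < p) {t : ℤ} {j : J} (hj : (p : ℤ) ∣ ff α β t j)
    (hj2 : ¬ (p : ℤ) ^ 2 ∣ ff α β t j) {k : Fin 3} (hk : j ∈ fs cls k) :
    (p : ℤ) ∣ F4 cls a α β t k ∧ ¬ (p : ℤ) ^ 2 ∣ F4 cls a α β t k := by
  have hpi : Prime (p : ℤ) := Nat.prime_iff_prime_int.1 hp
  rw [F4_split hk]
  refine ⟨hj.mul_right _, fun h => hj2 ?_⟩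
  have hco : IsCoprime ((p : ℤ) ^ 2) (a k * ∏ l ∈ (fs cls k).erase j, ff α β t l) :=
    IsCoprime.pow_left ((Prime.coprime_iff_not_dvd hpi).2
      (nd4 hB hp hz hj (notMem_erase _ _)))
  exact hco.dvd_of_dvd_mul_right h

lemma modR {α β : J → ℤ} {p : ℕ} {t : ℤ} {j : J} (hj : (p : ℤ) ∣ ff α β t j) (S : Finset J) :
    (∏ l ∈ S, Res α β j l) ≡ (α j) ^ S.card * ∏ l ∈ S, ff α β t l [ZMOD p] := by
  have h1 : (α j) ^ S.card * ∏ l ∈ S, ff α β t l = ∏ l ∈ S, (α j * ff α β t l) := by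
    rw [prod_mul_distrib, prod_const]
  rw [h1]
  refine Int.ModEq.prod fun l _ => ?_
  rw [Int.modEq_iff_dvd]
  have : α j * ff α β t l - Res α β j l = α l * ff α β t j := by unfold Res ff; ring
  rw [this]
  exact hj.mul_left _

/-- the symbol with a square -/
lemma symb_sq {p : ℕ} (hp : p.Prime) {q c x : ℤ} (e : ℤ) (hc : c ≡ e * x [ZMOD p])
    (he : ¬ (p : ℤ) ∣ e) (hx : ¬ (p : ℤ) ∣ x) :
    jacobiSym (q * (e * c * x)) p = jacobiSym q p := by
  have hpi : Prime (p : ℤ) := Nat.prime_iff_prime_int.1 hp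
  have h1 : q * (e * c * x) ≡ q * (e * x) ^ 2 [ZMOD p] := by
    have := (hc.mul_left (q * e)).mul_right x
    have e1 : q * e * c * x = q * (e * c * x) := by ring
    have e2 : q * e * (e * x) * x = q * (e * x) ^ 2 := by ring
    rwa [e1, e2] at this
  rw [jacobiSym.mod_left' h1, jacobiSym.mul_left]
  have h2 : jacobiSym ((e * x) ^ 2) p = 1 := by
    apply jacobiSym.sq_one'
    rw [← Int.isCoprime_iff_gcd_eq_one]
    refine IsCoprime.symm ((Prime.coprime_iff_not_dvd hpi).2 fun h => ?_)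
    rcases hpi.dvd_or_dvd h with h3 | h3
    · exact he h3
    · exact hx h3
  rw [h2, mul_one]

lemma symb4 {cls : J → Fin 4} {a : Fin 3 → ℤ} {α β : J → ℤ} {z : ℕ} (hB : Big4 a α β z) {p : ℕ}
    (hp : p.Prime) (hz : z < p) {t : ℤ} {j : J} (hj : (p : ℤ) ∣ ff α β t j) (h3 : cls j ≠ 3)
    (k : Fin 3) :
    jacobiSym (kap4 cls a α β j k * (sg4 (cls j) * F4 cls a α β t (cp4 (cls j)))) p = 1 := by
  have hpi : Prime (p : ℤ) := Nat.prime_iff_prime_int.1 hp
  set k' := cp4 (cls j) with hk'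
  have hjS : j ∉ fs cls k' := fun h => ne_of_fs h3 (cp4_ne _ h3) h rfl
  have hF : ¬ (p : ℤ) ∣ F4 cls a α β t k' := nd4 hB hp hz hj hjS
  have hα := (hB.1.2 p hp hz).1 j
  have h1 : kap4 cls a α β j k * (sg4 (cls j) * F4 cls a α β t k') =
      1 * ((α j) ^ (fs cls k').card * (a k' * ∏ l ∈ fs cls k', Res α β j l) *
        F4 cls a α β t k') := by
    unfold kap4
    rw [if_neg h3, ← hk']
    linear_combination ((α j) ^ (fs cls k').card * (a k' * ∏ l ∈ fs cls k', Res α β j l) *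
      F4 cls a α β t k') * sg4_sq (cls j)
  rw [h1, symb_sq hp ((α j) ^ (fs cls k').card) ?_ (fun h => hα (hpi.dvd_of_dvd_pow h)) hF]
  · exact jacobiSym.one_left p
  · have := (modR hj (fs cls k')).mul_left (a k')
    unfold F4
    rwa [show (α j) ^ (fs cls k').card * (a k' * ∏ l ∈ fs cls k', ff α β t l) =
      a k' * ((α j) ^ (fs cls k').card * ∏ l ∈ fs cls k', ff α β t l) by ring]

lemma symb4' {cls : J → Fin 4} {a : Fin 3 → ℤ} {α β : J → ℤ} {z : ℕ} (hB : Big4 a α β z) {p : ℕ}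
    (hp : p.Prime) (hz : z < p) {t : ℤ} {j : J} (hj : (p : ℤ) ∣ ff α β t j) (h3 : cls j = 3)
    (k : Fin 3) :
    jacobiSym (kap4 cls a α β j k * (F4 cls a α β t k / p)) p = jacobiSym (ff α β t j / p) p := by
  have hpi : Prime (p : ℤ) := Nat.prime_iff_prime_int.1 hp
  have hp0 : (p : ℤ) ≠ 0 := hpi.ne_zero
  have hk : j ∈ fs cls k := mem_filter.2 ⟨mem_univ _, Or.inr h3⟩
  obtain ⟨q, hq⟩ := hj
  have hj : (p : ℤ) ∣ ff α β t j := ⟨q, hq⟩
  set S := (fs cls k).erase j with hS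
  have e1 : F4 cls a α β t k / p = q * (a k * ∏ l ∈ S, ff α β t l) := by
    rw [F4_split hk, hq, mul_assoc, Int.mul_ediv_cancel_left _ hp0]
  have e2 : ff α β t j / p = q := by rw [hq, Int.mul_ediv_cancel_left _ hp0]
  rw [e1, e2]
  have h1 : kap4 cls a α β j k * (q * (a k * ∏ l ∈ S, ff α β t l)) =
      q * ((α j) ^ S.card * (a k * ∏ l ∈ S, Res α β j l) * (a k * ∏ l ∈ S, ff α β t l)) := by
    unfold kap4
    rw [if_pos h3, ← hS]
    ring
  rw [h1, symb_sq hp ((α j) ^ S.card) ?_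
    (fun h => (hB.1.2 p hp hz).1 j (hpi.dvd_of_dvd_pow h)) (nd4 hB hp hz hj (notMem_erase _ _))]
  have := (modR hj S).mul_left (a k)
  rwa [show (α j) ^ S.card * (a k * ∏ l ∈ S, ff α β t l) =
      a k * ((α j) ^ S.card * ∏ l ∈ S, ff α β t l) by ring]

/-- the local hypotheses hold -/
lemma locH4 {cls : J → Fin 4} {a : Fin 3 → ℤ} {α β : J → ℤ} {z : ℕ} (hB : Big4 a α β z) {p : ℕ}
    (hp : p.Prime) (hz : z < p) {t : ℤ} {j : J}
    (hF : F4 cls a α β t 0 - F4 cls a α β t 1 = F4 cls a α β t 2) (hj : (p : ℤ) ∣ ff α β t j)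
    (hj2 : ¬ (p : ℤ) ^ 2 ∣ ff α β t j) {neg : Bool}
    (hneg : cls j = 3 → (neg = true ↔ jacobiSym (ff α β t j / p) p = -1)) :
    LocH (cls j) (kap4 cls a α β j) neg p (F4 cls a α β t 0) (F4 cls a α β t 1) := by
  have hpi : Prime (p : ℤ) := Nat.prime_iff_prime_int.1 hp
  have hd : ∀ k, j ∈ fs cls k → (p : ℤ) ∣ F4 cls a α β t k ∧ ¬ (p : ℤ) ^ 2 ∣ F4 cls a α β t k :=
    fun k hk => d4 hB hp hz hj hj2 hk
  have hn : ∀ k, j ∉ fs cls k → ¬ (p : ℤ) ∣ F4 cls a α β t k := fun k hk => nd4 hB hp hz hj hk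
  have hs := fun h3 : cls j ≠ 3 => symb4 (cls := cls) hB hp hz hj h3 0
  have hs' := fun (h3 : cls j = 3) (k : Fin 3) => symb4' (cls := cls) hB hp hz hj h3 k
  have hmem : ∀ k : Fin 3, j ∈ fs cls k ↔ (cls j = k.castSucc ∨ cls j = 3) := fun k => by
    unfold fs
    rw [mem_filter]
    exact ⟨fun h => h.2, fun h => ⟨mem_univ _, h⟩⟩
  have hcase : cls j = 0 ∨ cls j = 1 ∨ cls j = 2 ∨ cls j = 3 := by
    generalize cls j = c
    revert c
    decide
  unfold LocH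
  rcases hcase with h | h | h | h
  · rw [if_pos h]
    have h1 := hd 0 ((hmem 0).2 (Or.inl (by rw [h]; rfl)))
    have h2 := hn 1 (fun h3 => by
      rcases (hmem 1).1 h3 with h4 | h4 <;> rw [h] at h4 <;> exact absurd h4 (by decide))
    have h3 := hs (by rw [h]; decide)
    rw [h, show sg4 0 = -1 from rfl, show cp4 0 = 1 from rfl, neg_one_mul] at h3
    exact ⟨h1.1, h1.2, h2, h3⟩
  · rw [if_neg (by rw [h]; decide), if_pos h]
    have h1 := hd 1 ((hmem 1).2 (Or.inl (by rw [h]; rfl)))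
    have h2 := hn 0 (fun h3 => by
      rcases (hmem 0).1 h3 with h4 | h4 <;> rw [h] at h4 <;> exact absurd h4 (by decide))
    have h3 := hs (by rw [h]; decide)
    rw [h, show sg4 1 = -1 from rfl, show cp4 1 = 0 from rfl, neg_one_mul] at h3
    exact ⟨h1.1, h1.2, h2, h3⟩
  · rw [if_neg (by rw [h]; decide), if_neg (by rw [h]; decide), if_pos h]
    have h1 := hd 2 ((hmem 2).2 (Or.inl (by rw [h]; rfl)))
    have h2 := hn 0 (fun h3 => by
      rcases (hmem 0).1 h3 with h4 | h4 <;> rw [h] at h4 <;> exact absurd h4 (by decide))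
    have h3 := hs (by rw [h]; decide)
    rw [h, show sg4 2 = 1 from rfl, show cp4 2 = 0 from rfl, one_mul] at h3
    rw [hF]
    exact ⟨h1.1, h1.2, h2, h3⟩
  · rw [if_neg (by rw [h]; decide), if_neg (by rw [h]; decide), if_neg (by rw [h]; decide)]
    have h0 := hd 0 ((hmem 0).2 (Or.inr h))
    have h1 := hd 1 ((hmem 1).2 (Or.inr h))
    have h2 := hd 2 ((hmem 2).2 (Or.inr h))
    have hJ : jacobiSym (ff α β t j / p) p = if neg = true then -1 else 1 := by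
      split_ifs with h5
      · exact (hneg h).1 h5
      · have h6 : jacobiSym (ff α β t j / p) p ≠ -1 := fun h7 => h5 ((hneg h).2 h7)
        have h7 : (ff α β t j / p).gcd p = 1 := by
          rw [← Int.isCoprime_iff_gcd_eq_one]
          refine IsCoprime.symm ((Prime.coprime_iff_not_dvd hpi).2 fun h8 => hj2 ?_)
          obtain ⟨q, hq⟩ := hj
          rw [hq, Int.mul_ediv_cancel_left _ hpi.ne_zero] at h8
          rw [hq, pow_two]
          exact mul_dvd_mul_left _ h8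
        rcases jacobiSym.eq_one_or_neg_one h7 with h8 | h8
        · exact h8
        · exact absurd h8 h6
    refine ⟨h0.1, h1.1, h0.2, h1.2, ?_, ?_, ?_, ?_⟩
    · rw [hF]; exact h2.2
    · rw [hs' h 0, hJ]
    · rw [hs' h 1, hJ]
    · rw [hF, hs' h 2, hJ]

end Pool.Agent.W262.RK
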