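import Mathlib
import Pool.Agent.W262.RK.NT1

/-!
# One level of the decomposition
-/

namespace Pool.Agent.W262.RK

open Finset

variable {J : Type} [Fintype J] [DecidableEq J]

/-- the weight of `v` -/
noncomputable def bV (N : ℕ) (v : J → ℕ) : ℝ :=
  ∏ j, 4 ^ (v j).primeFactors.card * (gw 1 N (v j) / v j)

lemma gw_nn {c z y : ℕ} (hz : c ≤ z) {d : J → ℕ} (hd : d ∈ Tup J z y) (j : J) :
    0 ≤ gw 1 c (d j) :=
  gw_nonneg (z := z) (y := y) (by norm_num) hz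
    (Nat.mem_divisors.2 ⟨(mem_Tup'.1 hd).1 j, PP_ne_zero z y⟩)

lemma bV_nn {c z y : ℕ} (hz : c ≤ z) {d : J → ℕ} (hd : d ∈ Tup J z y) : 0 ≤ bV c d :=
  prod_nonneg fun j _ => mul_nonneg (by positivity) (div_nonneg (gw_nn hz hd j) (by positivity))

lemma prod_cast_ge_one {z y : ℕ} {d : J → ℕ} (hd : d ∈ Tup J z y) : (1 : ℝ) ≤ ∏ j, (d j : ℝ) := by
  have h : 1 ≤ ∏ j, d j := Nat.one_le_iff_ne_zero.2
    (prod_ne_zero_iff.2 fun j _ => (Tup_pos hd j).ne')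
  exact_mod_cast h

open Classical in
/-- splitting the sum over `t` -/
lemma split_sum {T : Finset ℕ} {ι : Type} {A : Finset ι} {S : ι → Finset ℕ} {R : ℕ → ℝ}
    (hR : ∀ t, 0 ≤ R t) (h : ∀ t ∈ T, ∃ q ∈ A, t ∈ S q) :
    ∑ t ∈ T, R t ≤ ∑ q ∈ A, ∑ t ∈ S q, R t := by
  calc ∑ t ∈ T, R t ≤ ∑ t ∈ T, ∑ q ∈ A, (if t ∈ S q then R t else 0) := by
        refine sum_le_sum fun t ht => ?_
        obtain ⟨q, hq, htq⟩ := h t ht
        have h1 := single_le_sum (f := fun q => if t ∈ S q then R t else 0) (s := A)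
          (fun q _ => by split_ifs; exacts [hR t, le_rfl]) hq
        simp only [htq, if_true] at h1
        exact h1
    _ = ∑ q ∈ A, ∑ t ∈ T, (if t ∈ S q then R t else 0) := sum_comm
    _ ≤ _ := by
        refine sum_le_sum fun q _ => ?_
        rw [← sum_filter]
        refine sum_le_sum_of_subset_of_nonneg ?_ (fun t _ _ => hR t)
        intro t ht
        exact (mem_filter.1 ht).2

/-- one level -/
lemma lev {α β : J → ℤ} {z : ℕ} {G : (J → ℕ) → ℝ} {R : ℕ → ℝ}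
    {C D A1 A2 A3 lam : ℝ} {K y0 : ℕ} (hB : Bg α β z) (hG : ∀ s, 0 ≤ G s) (hR : ∀ t, 0 ≤ R t)
    (hC : 0 ≤ C) (hD : 1 ≤ D) (hA2 : 0 ≤ A2) (hA3 : 0 ≤ A3) (hgr : GR)
    (hlam : lam = 16 * (Real.log D + 1))
    (h1 : ∀ y, z < y → ∑ s ∈ Tup J z y, G s * (∏ j, gw 1 (Fintype.card J) (s j)) *
      (∏ j, (s j : ℝ)) ^ (lam / Real.log y) ≤ A1 * (Real.log y) ^ (Fintype.card J))
    (h2 : ∀ y, z < y → ∑ v ∈ Tup J z y, bV (Fintype.card J) v *
      (∏ j, (v j : ℝ)) ^ (lam / Real.log y) ≤ A2)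
    (h3 : ∀ y Y : ℕ, 3 ≤ y → Y ≤ (y + 1) ^ 2 → ∑ u ∈ Tup J y Y, (∏ j, 1 / (u j : ℝ)) *
      (∏ j, (u j : ℝ)) ^ (lam / Real.log y) ≤ A3)
    (hH : ∀ X y Y k : ℕ, y0 ≤ y → z < y → y ^ K ≤ X → X < (y + 1) ^ k → ∀ s ∈ Tup J z y,
      ∀ v ∈ Tup J z y, ∀ u ∈ Tup J y Y, (∏ j, s j * v j * u j) ^ 8 ≤ X →
      ∑ t ∈ (Icc 1 X).filter (fun t : ℕ => (∀ j, ff α β t j ≠ 0) ∧ s1 α β z y t = s ∧
        s2 α β z y t = v ∧ ∀ j, (u j : ℤ) ∣ ff α β t j), R t ≤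
        C * D ^ k * X * (G s * ∏ j, gw 1 (Fintype.card J) (s j)) *
          (∏ j, 4 ^ (v j).primeFactors.card * (gw 1 (Fintype.card J) (v j) / v j)) *
          (∏ j, 1 / (u j : ℝ)) / (Real.log y) ^ (Fintype.card J))
    {X y Y k : ℕ} (hy0 : y0 ≤ y) (hzy : z < y) (hy3 : 3 ≤ y) (hyK : y ^ K ≤ X) (hyk : y ^ k ≤ X)
    (hk : X < (y + 1) ^ k) (hyY : y ≤ Y) (hY : Y ≤ (y + 1) ^ 2) (hY16 : Y ^ 16 ≤ X) :
    ∑ t ∈ (Icc 1 X).filter (fun t : ℕ => (∀ j, ff α β t j ≠ 0) ∧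
      (∏ j, rp z y (ff α β t j)) ^ 8 ≤ X ∧ X < (∏ j, rp z Y (ff α β t j)) ^ 8), R t ≤
      C * A1 * A2 * A3 * X * Real.exp (-k) := by
  classical
  set N := Fintype.card J with hN
  have hX1 : 1 ≤ X := le_trans (Nat.one_le_pow _ _ (by omega)) hyk
  have hXr : (1 : ℝ) ≤ X := by exact_mod_cast hX1
  have hyr : (3 : ℝ) ≤ y := by exact_mod_cast hy3
  have hlogy : 0 < Real.log y := Real.log_pos (by linarith)
  have hlogD : 0 ≤ Real.log D := Real.log_nonneg hD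
  have hlam0 : 0 < lam := by rw [hlam]; linarith
  set δ := lam / Real.log y with hδ
  have hδ0 : 0 < δ := div_pos hlam0 hlogy
  have hcz : N ≤ z := by have := hB.1; omega
  set A := ((Tup J z y ×ˢ Tup J z y) ×ˢ Tup J y Y).filter (fun q =>
    (∏ j, q.1.1 j * q.1.2 j * q.2 j) ^ 8 ≤ X ∧ X < (∏ j, q.1.1 j * q.1.2 j * q.2 j) ^ 16) with hA
  set S : ((J → ℕ) × (J → ℕ)) × (J → ℕ) → Finset ℕ := fun q => (Icc 1 X).filter (fun t : ℕ =>
    (∀ j, ff α β t j ≠ 0) ∧ s1 α β z y t = q.1.1 ∧ s2 α β z y t = q.1.2 ∧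
    ∀ j, (q.2 j : ℤ) ∣ ff α β t j) with hS
  have hcov : ∀ t ∈ (Icc 1 X).filter (fun t : ℕ => (∀ j, ff α β t j ≠ 0) ∧
      (∏ j, rp z y (ff α β t j)) ^ 8 ≤ X ∧ X < (∏ j, rp z Y (ff α β t j)) ^ 8),
      ∃ q ∈ A, t ∈ S q := by
    intro t ht
    rw [mem_filter] at ht
    obtain ⟨ht1, ht0, ht2, ht3⟩ := ht
    obtain ⟨u, hu, hug, hu8, hu16⟩ := hgr J z y Y X hzy.le hyY hY16 (s1 α β z y t) (s2 α β z y t)
      (fun j => rp y Y (ff α β t j)) (rp_mem hB hzy.le t)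
      (by rw [prod_congr rfl (fun j _ => s1_mul_s2 α β z y t j)]; exact ht2)
      (by
        rw [prod_congr rfl (fun j _ => by rw [s1_mul_s2 α β z y t j, ← rp_mul hzy.le hyY])]
        exact ht3)
    refine ⟨((s1 α β z y t, s2 α β z y t), u), ?_, ?_⟩
    · rw [hA, mem_filter, mem_product, mem_product]
      exact ⟨⟨⟨s1_mem hB t, s2_mem hB t⟩, hu⟩, hu8, hu16⟩
    · rw [hS, mem_filter]
      refine ⟨ht1, ht0, rfl, rfl, fun j => ?_⟩
      have h4 : (rp y Y (ff α β t j) : ℤ) ∣ ff α β t j :=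
        prodS_dvd (fun p hp => (mem_PS.1 (mem_filter.1 hp).1).2) (fun p hp => (mem_filter.1 hp).2)
      exact (Int.natCast_dvd_natCast.2 (hug j)).trans h4
  refine (split_sum hR hcov).trans ?_
  -- the bound for each `q`
  set W : ℝ := C * D ^ k * X / (Real.log y) ^ N * (X : ℝ) ^ (-(δ / 16)) with hW
  have hW0 : 0 ≤ W := by positivity
  have hq : ∀ q ∈ A, ∑ t ∈ S q, R t ≤ W *
      ((G q.1.1 * (∏ j, gw 1 N (q.1.1 j)) * (∏ j, (q.1.1 j : ℝ)) ^ δ) *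
        (bV N q.1.2 * (∏ j, (q.1.2 j : ℝ)) ^ δ) *
        ((∏ j, 1 / (q.2 j : ℝ)) * (∏ j, (q.2 j : ℝ)) ^ δ)) := by
    intro q hq
    rw [hA, mem_filter, mem_product, mem_product] at hq
    obtain ⟨⟨⟨hs, hv⟩, hu⟩, hq8, hq16⟩ := hq
    refine (hH X y Y k hy0 hzy hyK hk q.1.1 hs q.1.2 hv q.2 hu hq8).trans ?_
    have ha : 0 ≤ G q.1.1 * ∏ j, gw 1 N (q.1.1 j) :=
      mul_nonneg (hG _) (prod_nonneg fun j _ => gw_nn hcz hs j)
    have hb : 0 ≤ bV N q.1.2 := bV_nn hcz hv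
    have hc : 0 ≤ ∏ j, 1 / (q.2 j : ℝ) := prod_nonneg fun j _ => by positivity
    have hp1 := prod_cast_ge_one hs
    have hp2 := prod_cast_ge_one hv
    have hp3 := prod_cast_ge_one hu
    have hfac : 1 ≤ (X : ℝ) ^ (-(δ / 16)) * ((∏ j, (q.1.1 j : ℝ)) ^ δ *
        (∏ j, (q.1.2 j : ℝ)) ^ δ * (∏ j, (q.2 j : ℝ)) ^ δ) := by
      rw [← Real.mul_rpow (by positivity) (by positivity),
        ← Real.mul_rpow (by positivity) (by positivity)]
      set P : ℝ := (∏ j, (q.1.1 j : ℝ)) * (∏ j, (q.1.2 j : ℝ)) * (∏ j, (q.2 j : ℝ)) with hP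
      have hP1 : 1 ≤ P := by
        rw [hP]
        exact one_le_mul_of_one_le_of_one_le (one_le_mul_of_one_le_of_one_le hp1 hp2) hp3
      have hPX : (X : ℝ) ≤ P ^ (16 : ℕ) := by
        have h5 : (X : ℝ) ≤ (((∏ j, q.1.1 j * q.1.2 j * q.2 j) ^ 16 : ℕ) : ℝ) := by
          exact_mod_cast hq16.le
        push_cast at h5
        rw [prod_mul_distrib, prod_mul_distrib] at h5
        exact h5
      have hPd : (X : ℝ) ^ (δ / 16) ≤ P ^ δ := by
        calc (X : ℝ) ^ (δ / 16) ≤ (P ^ (16 : ℕ)) ^ (δ / 16) :=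
              Real.rpow_le_rpow (by positivity) hPX (by positivity)
          _ = P ^ δ := by
              rw [← Real.rpow_natCast, ← Real.rpow_mul (by positivity)]
              congr 1
              push_cast
              ring
      rw [Real.rpow_neg (by positivity)]
      have h6 : 0 < (X : ℝ) ^ (δ / 16) := by positivity
      rw [inv_mul_eq_div, one_le_div h6]
      exact hPd
    have hbase : 0 ≤ C * D ^ k * X / (Real.log y) ^ N * ((G q.1.1 * ∏ j, gw 1 N (q.1.1 j)) *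
        bV N q.1.2 * ∏ j, 1 / (q.2 j : ℝ)) :=
      mul_nonneg (by positivity) (mul_nonneg (mul_nonneg ha hb) hc)
    calc C * D ^ k * X * (G q.1.1 * ∏ j, gw 1 N (q.1.1 j)) *
          (∏ j, 4 ^ (q.1.2 j).primeFactors.card * (gw 1 N (q.1.2 j) / q.1.2 j)) *
          (∏ j, 1 / (q.2 j : ℝ)) / (Real.log y) ^ N
        = C * D ^ k * X / (Real.log y) ^ N * ((G q.1.1 * ∏ j, gw 1 N (q.1.1 j)) *
        bV N q.1.2 * ∏ j, 1 / (q.2 j : ℝ)) := by unfold bV; ring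
      _ ≤ C * D ^ k * X / (Real.log y) ^ N * ((G q.1.1 * ∏ j, gw 1 N (q.1.1 j)) *
        bV N q.1.2 * ∏ j, 1 / (q.2 j : ℝ)) * ((X : ℝ) ^ (-(δ / 16)) *
          ((∏ j, (q.1.1 j : ℝ)) ^ δ * (∏ j, (q.1.2 j : ℝ)) ^ δ * (∏ j, (q.2 j : ℝ)) ^ δ)) :=
          le_mul_of_one_le_right hbase hfac
      _ = _ := by rw [hW]; ring
  refine (sum_le_sum hq).trans ?_
  rw [← mul_sum]
  have hfull : ∑ q ∈ A, ((G q.1.1 * (∏ j, gw 1 N (q.1.1 j)) * (∏ j, (q.1.1 j : ℝ)) ^ δ) *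
        (bV N q.1.2 * (∏ j, (q.1.2 j : ℝ)) ^ δ) *
        ((∏ j, 1 / (q.2 j : ℝ)) * (∏ j, (q.2 j : ℝ)) ^ δ)) ≤
      (∑ s ∈ Tup J z y, G s * (∏ j, gw 1 N (s j)) * (∏ j, (s j : ℝ)) ^ δ) *
      (∑ v ∈ Tup J z y, bV N v * (∏ j, (v j : ℝ)) ^ δ) *
      (∑ u ∈ Tup J y Y, (∏ j, 1 / (u j : ℝ)) * (∏ j, (u j : ℝ)) ^ δ) := by
    rw [sum_mul_sum, ← sum_product', sum_mul_sum, ← sum_product']
    refine sum_le_sum_of_subset_of_nonneg (filter_subset _ _) (fun q hq _ => ?_)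
    rw [mem_product, mem_product] at hq
    obtain ⟨⟨hs, hv⟩, hu⟩ := hq
    have hp1 := prod_cast_ge_one hs
    have hp2 := prod_cast_ge_one hv
    have hp3 := prod_cast_ge_one hu
    refine mul_nonneg (mul_nonneg ?_ ?_) ?_
    · exact mul_nonneg (mul_nonneg (hG _) (prod_nonneg fun j _ => gw_nn hcz hs j)) (by positivity)
    · exact mul_nonneg (bV_nn hcz hv) (by positivity)
    · exact mul_nonneg (prod_nonneg fun j _ => by positivity) (by positivity)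
  have hs0 : 0 ≤ ∑ s ∈ Tup J z y, G s * (∏ j, gw 1 N (s j)) * (∏ j, (s j : ℝ)) ^ δ :=
    sum_nonneg fun s hs => by
      have hp1 := prod_cast_ge_one hs
      exact mul_nonneg (mul_nonneg (hG _) (prod_nonneg fun j _ => gw_nn hcz hs j)) (by positivity)
  have hv0 : 0 ≤ ∑ v ∈ Tup J z y, bV N v * (∏ j, (v j : ℝ)) ^ δ :=
    sum_nonneg fun v hv => by
      have hp1 := prod_cast_ge_one hv
      exact mul_nonneg (bV_nn hcz hv) (by positivity)
  have hu0 : 0 ≤ ∑ u ∈ Tup J y Y, (∏ j, 1 / (u j : ℝ)) * (∏ j, (u j : ℝ)) ^ δ :=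
    sum_nonneg fun u hu => by
      have hp1 := prod_cast_ge_one hu
      exact mul_nonneg (prod_nonneg fun j _ => by positivity) (by positivity)
  have hbd : (∑ s ∈ Tup J z y, G s * (∏ j, gw 1 N (s j)) * (∏ j, (s j : ℝ)) ^ δ) *
      (∑ v ∈ Tup J z y, bV N v * (∏ j, (v j : ℝ)) ^ δ) *
      (∑ u ∈ Tup J y Y, (∏ j, 1 / (u j : ℝ)) * (∏ j, (u j : ℝ)) ^ δ) ≤
      (A1 * (Real.log y) ^ N) * A2 * A3 := by
    have e1 := h1 y hzy
    have e2 := h2 y hzy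
    have e3 := h3 y Y hy3 hY
    exact mul_le_mul (mul_le_mul e1 e2 hv0 (hs0.trans e1)) e3 hu0
      (mul_nonneg (hs0.trans e1) hA2)
  have hfin := mul_le_mul_of_nonneg_left (hfull.trans hbd) hW0
  refine hfin.trans ?_
  have hA1 : 0 ≤ A1 := by
    have e1 := hs0.trans (h1 y hzy)
    have e2 : 0 < (Real.log y) ^ N := by positivity
    exact nonneg_of_mul_nonneg_left e1 e2
  -- the exponential saving
  have hexp : D ^ k * (X : ℝ) ^ (-(δ / 16)) ≤ Real.exp (-k) := by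
    have hXpos : (0 : ℝ) < X := by linarith
    have hlX : k * Real.log y ≤ Real.log X := by
      rw [← Real.log_pow]
      exact Real.log_le_log (by positivity) (by exact_mod_cast hyk)
    have e1 : D ^ k = Real.exp (k * Real.log D) := by
      rw [← Real.log_pow, Real.exp_log (by positivity)]
    have e2 : (X : ℝ) ^ (-(δ / 16)) = Real.exp (-(δ / 16) * Real.log X) := by
      rw [Real.rpow_def_of_pos hXpos, mul_comm]
    rw [e1, e2, ← Real.exp_add]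
    apply Real.exp_le_exp.2
    have e3 : δ / 16 * (k * Real.log y) ≤ δ / 16 * Real.log X :=
      mul_le_mul_of_nonneg_left hlX (by positivity)
    have e4 : δ / 16 * (k * Real.log y) = k * (Real.log D + 1) := by
      rw [hδ, hlam]
      field_simp
    rw [e4] at e3
    linarith
  have hL : (Real.log y) ^ N ≠ 0 := by positivity
  calc W * (A1 * (Real.log y) ^ N * A2 * A3)
      = (C * A1 * A2 * A3 * X) * (D ^ k * (X : ℝ) ^ (-(δ / 16))) := by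
        rw [hW]; field_simp
    _ ≤ (C * A1 * A2 * A3 * X) * Real.exp (-k) :=
        mul_le_mul_of_nonneg_left hexp (by positivity)

end Pool.Agent.W262.RK
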