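import Mathlib
import Pool.Agent.W262.RK.F4b
import Pool.Agent.W372.RK2.CNT4
import Pool.Agent.W405.RK2.RS
import Pool.Agent.W591.RK2.RVRU
import Pool.Agent.W125.RK2.SUBB
import Pool.Agent.W125.RK2.COMB4
import Pool.Agent.W762.RK2.EXP4b
import Pool.Agent.W342.RK2.LocL
import Pool.Agent.W214.RK2.Desc4

/-!
# The average of `2 ^ rank`: all the parts together
-/

namespace Pool.Agent.W262.RK

open Finset

/-- the average of `2 ^ rank` for general classes -/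
theorem avg4_all (hsvr : SVR) (hgr : GR) {J : Type} [Fintype J] [DecidableEq J] (cls : J → Fin 4)
    (n : ℕ) (hn : ∀ k, k ≠ 3 → (univ.filter (fun j => cls j = k)).card = n)
    (a : Fin 3 → ℤ) (α β : J → ℤ) (ha : ∀ k, a k ≠ 0) (hα : ∀ j, α j ≠ 0)
    (hR : ∀ j l, j ≠ l → Res α β j l ≠ 0)
    (hF : ∀ t : ℤ, F4 cls a α β t 0 - F4 cls a α β t 1 = F4 cls a α β t 2) :
    ∃ C : ℝ, ∀ X : ℕ, ∑ t ∈ (Icc 1 X).filter (fun t : ℕ => ∀ j, ff α β t j ≠ 0),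
      (2 : ℝ) ^ Module.finrank ℤ
        (EAB (F4 cls a α β t 0) (F4 cls a α β t 1)).toAffine.Point ≤ C * X :=
  avg4 Pool.Agent.W214.RK2.desc4 Pool.Agent.W342.RK2.xcl Pool.Agent.W342.RK2.locl
    Pool.Agent.W762.RK2.exp4 Pool.Agent.W125.RK2.comb4
    (Pool.Agent.W125.RK2.subb_of Pool.Agent.W125.RK2.sub4 Pool.Agent.W342.RK2.xcl)
    (Pool.Agent.W372.RK2.cnt4_of hsvr)
    (nt_of Pool.Agent.W405.RK2.rs Pool.Agent.W591.RK2.rv Pool.Agent.W591.RK2.ru hgr)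
    cls n hn a α β ha hα hR hF

/-- the same with the zeros of the forms -/
theorem avg4_full (hsvr : SVR) (hgr : GR) {J : Type} [Fintype J] [DecidableEq J] (cls : J → Fin 4)
    (n : ℕ) (hn : ∀ k, k ≠ 3 → (univ.filter (fun j => cls j = k)).card = n)
    (a : Fin 3 → ℤ) (α β : J → ℤ) (ha : ∀ k, a k ≠ 0) (hα : ∀ j, α j ≠ 0)
    (hR : ∀ j l, j ≠ l → Res α β j l ≠ 0)
    (hF : ∀ t : ℤ, F4 cls a α β t 0 - F4 cls a α β t 1 = F4 cls a α β t 2) :
    ∃ C : ℝ, 0 ≤ C ∧ ∀ X : ℕ, ∑ t ∈ Icc 1 X, (2 : ℝ) ^ Module.finrank ℤ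
        (EAB (F4 cls a α β (t : ℤ) 0) (F4 cls a α β (t : ℤ) 1)).toAffine.Point ≤ C * X := by
  classical
  obtain ⟨C, hC⟩ := avg4_all hsvr hgr cls n hn a α β ha hα hR hF
  set R : ℕ → ℝ := fun t => (2 : ℝ) ^ Module.finrank ℤ
        (EAB (F4 cls a α β (t : ℤ) 0) (F4 cls a α β (t : ℤ) 1)).toAffine.Point with hRdef
  have hR0 : ∀ t, 0 ≤ R t := fun t => by positivity
  -- the zeros
  set T0 : ℕ := ∑ j, (β j).natAbs with hT0
  have hzero : ∀ t : ℕ, (¬ ∀ j, ff α β t j ≠ 0) → t ≤ T0 := by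
    intro t ht
    push Not at ht
    obtain ⟨j, hj⟩ := ht
    unfold ff at hj
    have h1 : (β j).natAbs = (α j).natAbs * t := by
      have h2 : β j = -(α j * t) := by linarith
      rw [h2, Int.natAbs_neg, Int.natAbs_mul, Int.natAbs_natCast]
    have h3 := single_le_sum (f := fun j => (β j).natAbs) (fun _ _ => Nat.zero_le _) (mem_univ j)
    have h4 : t ≤ (α j).natAbs * t := Nat.le_mul_of_pos_left _ (Int.natAbs_pos.2 (hα j))
    omega
  set D : ℝ := ∑ t ∈ Icc 1 T0, R t with hD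
  have hD0 : 0 ≤ D := sum_nonneg fun t _ => hR0 t
  refine ⟨max C 0 + D, add_nonneg (le_max_right _ _) hD0, fun X => ?_⟩
  rcases Nat.eq_zero_or_pos X with hX | hX
  · subst hX; simp
  have hXr : (1 : ℝ) ≤ X := by exact_mod_cast hX
  have h1 : ∑ t ∈ Icc 1 X, R t = ∑ t ∈ (Icc 1 X).filter (fun t : ℕ => ∀ j, ff α β t j ≠ 0), R t +
      ∑ t ∈ (Icc 1 X).filter (fun t : ℕ => ¬ ∀ j, ff α β t j ≠ 0), R t :=
    (sum_filter_add_sum_filter_not _ _ _).symm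
  have h2 : ∑ t ∈ (Icc 1 X).filter (fun t : ℕ => ¬ ∀ j, ff α β t j ≠ 0), R t ≤ D := by
    refine sum_le_sum_of_subset_of_nonneg ?_ (fun t _ _ => hR0 t)
    intro t ht
    rw [mem_filter, mem_Icc] at ht
    rw [mem_Icc]
    exact ⟨ht.1.1, hzero t ht.2⟩
  have h3 := hC X
  have h4 : C * X ≤ max C 0 * X := mul_le_mul_of_nonneg_right (le_max_left _ _) (by positivity)
  have h5 : D ≤ D * X := le_mul_of_one_le_right hD0 hXr
  show ∑ t ∈ Icc 1 X, R t ≤ (max C 0 + D) * X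
  rw [h1, add_mul]
  exact add_le_add (h3.trans h4) (h2.trans h5)

end Pool.Agent.W262.RK
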